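import Mathlib

set_option autoImplicit false

/-! # Finite algebras in the signature of Heyting algebras: separation by finite members

`Crit A` is the finite criterion; `crit_core` is the common core of the algebraic and of the
logical form of the theorem. -/

namespace Pool.Agent.Y549.HSC

universe u w

/-- An algebra in the signature `(∧, ∨, →, 0, 1)` with carrier `M`. -/
@[ext]
structure Alg (M : Type u) where
  inf : M → M → M
  sup : M → M → M
  imp : M → M → M
  bot : M
  top : M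

/-- Formulas (terms) over `(∧, ∨, →, 0, 1)` in the variables `0, 1, 2, …`. -/
inductive Fm : Type
  | var : ℕ → Fm
  | bot : Fm
  | top : Fm
  | and : Fm → Fm → Fm
  | or : Fm → Fm → Fm
  | imp : Fm → Fm → Fm

/-- The value of a formula under the assignment `v`. -/
def Alg.eval {M : Type u} (A : Alg M) (v : ℕ → M) : Fm → M
  | .var i => v i
  | .bot => A.bot
  | .top => A.top
  | .and a b => A.inf (A.eval v a) (A.eval v b)
  | .or a b => A.sup (A.eval v a) (A.eval v b)
  | .imp a b => A.imp (A.eval v a) (A.eval v b)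

/-- Simultaneous substitution. -/
def Fm.subst (σ : ℕ → Fm) : Fm → Fm
  | .var i => σ i
  | .bot => .bot
  | .top => .top
  | .and a b => .and (a.subst σ) (b.subst σ)
  | .or a b => .or (a.subst σ) (b.subst σ)
  | .imp a b => .imp (a.subst σ) (b.subst σ)

/-- all variables of the formula are among `0, …, k-1` -/
def Fm.Below (k : ℕ) : Fm → Prop
  | .var i => i < k
  | .bot => True
  | .top => True
  | .and a b => a.Below k ∧ b.Below k
  | .or a b => a.Below k ∧ b.Below k
  | .imp a b => a.Below k ∧ b.Below k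

/-- Homomorphisms. -/
structure IsHom {M : Type u} {N : Type w} (A : Alg M) (B : Alg N) (h : M → N) : Prop where
  inf : ∀ a b, h (A.inf a b) = B.inf (h a) (h b)
  sup : ∀ a b, h (A.sup a b) = B.sup (h a) (h b)
  imp : ∀ a b, h (A.imp a b) = B.imp (h a) (h b)
  bot : h A.bot = B.bot
  top : h A.top = B.top

/-- The homomorphisms from `C` to `E` separate the points of `C` (for finite `C`, `E` this says
`C ∈ ISP(E)`). -/
def Sep {M : Type u} {N : Type w} (C : Alg M) (E : Alg N) : Prop :=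
  ∀ x y : M, x ≠ y → ∃ h : M → N, IsHom C E h ∧ h x ≠ h y

/-- `C` is a homomorphic image of `E`. -/
def Onto {M : Type u} {N : Type w} (E : Alg M) (C : Alg N) : Prop :=
  ∃ h : M → N, IsHom E C h ∧ Function.Surjective h

/-- The finite criterion. -/
def Crit {n : ℕ} (A : Alg (Fin n)) : Prop :=
  ∀ k ≤ n, ∀ C : Alg (Fin k), Sep C A → ∀ m ≤ n ^ (n ^ n), ∀ E : Alg (Fin m), Sep E A →
    Onto E C → Sep C E

/-- quasi-identities: a finite list of premises (equations) and a conclusion -/
abbrev QId := List (Fm × Fm) × (Fm × Fm)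

/-- `A` satisfies the quasi-identity `q`. -/
def Alg.SatQ {M : Type u} (A : Alg M) (q : QId) : Prop :=
  ∀ v : ℕ → M, (∀ e ∈ q.1, A.eval v e.1 = A.eval v e.2) → A.eval v q.2.1 = A.eval v q.2.2

/-- `A` satisfies the identity `e`. -/
def Alg.SatI {M : Type u} (A : Alg M) (e : Fm × Fm) : Prop :=
  ∀ v : ℕ → M, A.eval v e.1 = A.eval v e.2

/-- A set of equations closed under the quasi-equational consequences of `A`. -/
def Closed {M : Type u} (A : Alg M) (T : Set (Fm × Fm)) : Prop :=
  ∀ (L : List (Fm × Fm)) (e : Fm × Fm), (∀ p ∈ L, p ∈ T) → A.SatQ (L, e) → e ∈ T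

section basics

variable {M : Type u} {N : Type w}

theorem IsHom.eval {A : Alg M} {B : Alg N} {h : M → N} (hh : IsHom A B h) (v : ℕ → M) (s : Fm) :
    h (A.eval v s) = B.eval (fun i => h (v i)) s := by
  induction s with
  | var i => rfl
  | bot => exact hh.bot
  | top => exact hh.top
  | and a b iha ihb => simp only [Alg.eval, hh.inf, iha, ihb]
  | or a b iha ihb => simp only [Alg.eval, hh.sup, iha, ihb]
  | imp a b iha ihb => simp only [Alg.eval, hh.imp, iha, ihb]

theorem eval_subst (A : Alg M) (v : ℕ → M) (σ : ℕ → Fm) (s : Fm) :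
    A.eval v (s.subst σ) = A.eval (fun i => A.eval v (σ i)) s := by
  induction s with
  | var i => rfl
  | bot => rfl
  | top => rfl
  | and a b iha ihb => simp only [Alg.eval, Fm.subst, iha, ihb]
  | or a b iha ihb => simp only [Alg.eval, Fm.subst, iha, ihb]
  | imp a b iha ihb => simp only [Alg.eval, Fm.subst, iha, ihb]

theorem eval_congr (A : Alg M) {k : ℕ} {v v' : ℕ → M} (hv : ∀ i < k, v i = v' i) (s : Fm)
    (hs : s.Below k) : A.eval v s = A.eval v' s := by
  induction s with
  | var i => exact hv i hs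
  | bot => rfl
  | top => rfl
  | and a b iha ihb => simp only [Alg.eval, iha hs.1, ihb hs.2]
  | or a b iha ihb => simp only [Alg.eval, iha hs.1, ihb hs.2]
  | imp a b iha ihb => simp only [Alg.eval, iha hs.1, ihb hs.2]

theorem below_subst {k : ℕ} {σ : ℕ → Fm} (hσ : ∀ i, (σ i).Below k) (s : Fm) :
    (s.subst σ).Below k := by
  induction s with
  | var i => exact hσ i
  | bot => trivial
  | top => trivial
  | and a b iha ihb => exact ⟨iha, ihb⟩
  | or a b iha ihb => exact ⟨iha, ihb⟩
  | imp a b iha ihb => exact ⟨iha, ihb⟩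

theorem below_mono {k l : ℕ} (h : k ≤ l) {s : Fm} (hs : s.Below k) : s.Below l := by
  induction s with
  | var i => exact lt_of_lt_of_le hs h
  | bot => trivial
  | top => trivial
  | and a b iha ihb => exact ⟨iha hs.1, ihb hs.2⟩
  | or a b iha ihb => exact ⟨iha hs.1, ihb hs.2⟩
  | imp a b iha ihb => exact ⟨iha hs.1, ihb hs.2⟩

theorem exists_below (s : Fm) : ∃ k, s.Below k := by
  induction s with
  | var i => exact ⟨i + 1, Nat.lt_succ_self i⟩
  | bot => exact ⟨0, trivial⟩
  | top => exact ⟨0, trivial⟩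
  | and a b iha ihb =>
    obtain ⟨k, hk⟩ := iha
    obtain ⟨l, hl⟩ := ihb
    exact ⟨max k l, below_mono (le_max_left _ _) hk, below_mono (le_max_right _ _) hl⟩
  | or a b iha ihb =>
    obtain ⟨k, hk⟩ := iha
    obtain ⟨l, hl⟩ := ihb
    exact ⟨max k l, below_mono (le_max_left _ _) hk, below_mono (le_max_right _ _) hl⟩
  | imp a b iha ihb =>
    obtain ⟨k, hk⟩ := iha
    obtain ⟨l, hl⟩ := ihb
    exact ⟨max k l, below_mono (le_max_left _ _) hk, below_mono (le_max_right _ _) hl⟩

theorem exists_below_list (L : List (Fm × Fm)) :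
    ∃ k, ∀ e ∈ L, e.1.Below k ∧ e.2.Below k := by
  induction L with
  | nil => exact ⟨0, by simp⟩
  | cons a L ih =>
    obtain ⟨k, hk⟩ := ih
    obtain ⟨k1, h1⟩ := exists_below a.1
    obtain ⟨k2, h2⟩ := exists_below a.2
    refine ⟨max k (max k1 k2), ?_⟩
    intro e he
    rcases List.mem_cons.1 he with rfl | he
    · exact ⟨below_mono (by omega) h1, below_mono (by omega) h2⟩
    · exact ⟨below_mono (by omega) (hk e he).1, below_mono (by omega) (hk e he).2⟩

theorem Sep.satQ {C : Alg M} {E : Alg N} (h : Sep C E) {q : QId} (hq : E.SatQ q) : C.SatQ q := by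
  intro v hv
  by_contra hne
  obtain ⟨g, hg, hgne⟩ := h _ _ hne
  apply hgne
  rw [hg.eval, hg.eval]
  apply hq
  intro e he
  rw [← hg.eval, ← hg.eval, hv e he]

theorem Onto.satI {E : Alg M} {C : Alg N} (h : Onto E C) {e : Fm × Fm} (he : E.SatI e) :
    C.SatI e := by
  obtain ⟨g, hg, hs⟩ := h
  intro v
  choose p hp using hs
  have h1 := hg.eval (fun i => p (v i)) e.1
  have h2 := hg.eval (fun i => p (v i)) e.2
  simp only [hp] at h1 h2
  rw [← h1, ← h2, he]

end basics

section core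

variable {n : ℕ}

/-- extension of an assignment of `k` variables -/
def ext {M : Type u} (A : Alg M) {k : ℕ} (a : Fin k → M) : ℕ → M :=
  fun i => if h : i < k then a ⟨i, h⟩ else A.bot

theorem eval_ext {M : Type u} (A : Alg M) {k : ℕ} (v : ℕ → M) (s : Fm) (hs : s.Below k) :
    A.eval (ext A (fun i : Fin k => v i)) s = A.eval v s := by
  refine eval_congr A ?_ s hs
  intro i hi
  simp [ext, hi]

/-- the assignments of `k` variables in `A` which satisfy the equations of `T` -/
def Sol {M : Type u} (A : Alg M) (T : Set (Fm × Fm)) (k : ℕ) : Set (Fin k → M) :=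
  {a | ∀ e ∈ T, e.1.Below k → e.2.Below k → A.eval (ext A a) e.1 = A.eval (ext A a) e.2}

/-- Separation lemma: a closed theory is complete for its solutions in the finite algebra `A`. -/
theorem closed_sep (A : Alg (Fin n)) {T : Set (Fm × Fm)} (hT : Closed A T) (k : ℕ) {e : Fm × Fm}
    (h1 : e.1.Below k) (h2 : e.2.Below k)
    (h : ∀ a ∈ Sol A T k, A.eval (ext A a) e.1 = A.eval (ext A a) e.2) : e ∈ T := by
  classical
  have htop : (Fm.top, Fm.top) ∈ T := hT [] _ (by simp) (by intro v _; rfl)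
  have hch : ∀ a : Fin k → Fin n, ∃ p ∈ T, a ∉ Sol A T k →
      (p.1.Below k ∧ p.2.Below k ∧ A.eval (ext A a) p.1 ≠ A.eval (ext A a) p.2) := by
    intro a
    by_cases ha : a ∈ Sol A T k
    · exact ⟨_, htop, fun h => absurd ha h⟩
    · have ha' := ha
      simp only [Sol, Set.mem_ofPred_eq, not_forall] at ha'
      obtain ⟨p, hp, h1, h2, h3⟩ := ha'
      exact ⟨p, hp, fun _ => ⟨h1, h2, h3⟩⟩
  choose p hpT hp using hch
  refine hT ((Finset.univ : Finset (Fin k → Fin n)).toList.map p) e ?_ ?_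
  · intro q hq
    obtain ⟨a, -, rfl⟩ := List.mem_map.1 hq
    exact hpT a
  · intro v hv
    simp only at hv ⊢
    let a : Fin k → Fin n := fun i => v i
    by_cases ha : a ∈ Sol A T k
    · have := h a ha
      rw [eval_ext A v _ h1, eval_ext A v _ h2] at this
      exact this
    · exfalso
      obtain ⟨g1, g2, g3⟩ := hp a ha
      apply g3
      rw [eval_ext A v _ g1, eval_ext A v _ g2]
      exact hv _ (List.mem_map.2 ⟨a, by simp, rfl⟩)

/-- carrier of the `T`-free algebra on `k` generators -/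
def FCar {M : Type u} (A : Alg M) (T : Set (Fm × Fm)) (k : ℕ) : Type u :=
  {f : Sol A T k → M // ∃ s : Fm, s.Below k ∧ f = fun a => A.eval (ext A a.1) s}

/-- the class of a formula -/
def cls {M : Type u} (A : Alg M) (T : Set (Fm × Fm)) {k : ℕ} (s : Fm) (hs : s.Below k) :
    FCar A T k := ⟨fun a => A.eval (ext A a.1) s, s, hs, rfl⟩

/-- the `T`-free algebra on `k` generators -/
def FAlg {M : Type u} (A : Alg M) (T : Set (Fm × Fm)) (k : ℕ) : Alg (FCar A T k) where
  inf f g := ⟨fun a => A.inf (f.1 a) (g.1 a), by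
    obtain ⟨s, hs, h1⟩ := f.2
    obtain ⟨t, ht, h2⟩ := g.2
    exact ⟨.and s t, ⟨hs, ht⟩, by rw [h1, h2]; rfl⟩⟩
  sup f g := ⟨fun a => A.sup (f.1 a) (g.1 a), by
    obtain ⟨s, hs, h1⟩ := f.2
    obtain ⟨t, ht, h2⟩ := g.2
    exact ⟨.or s t, ⟨hs, ht⟩, by rw [h1, h2]; rfl⟩⟩
  imp f g := ⟨fun a => A.imp (f.1 a) (g.1 a), by
    obtain ⟨s, hs, h1⟩ := f.2
    obtain ⟨t, ht, h2⟩ := g.2
    exact ⟨.imp s t, ⟨hs, ht⟩, by rw [h1, h2]; rfl⟩⟩
  bot := ⟨fun _ => A.bot, .bot, trivial, rfl⟩
  top := ⟨fun _ => A.top, .top, trivial, rfl⟩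

theorem proj_hom {M : Type u} (A : Alg M) (T : Set (Fm × Fm)) (k : ℕ) (a : Sol A T k) :
    IsHom (FAlg A T k) A (fun f => f.1 a) :=
  ⟨fun _ _ => rfl, fun _ _ => rfl, fun _ _ => rfl, rfl, rfl⟩

theorem sep_FAlg {M : Type u} (A : Alg M) (T : Set (Fm × Fm)) (k : ℕ) :
    Sep (FAlg A T k) A := by
  intro f g hfg
  have : ∃ a, f.1 a ≠ g.1 a := by
    by_contra hc
    push Not at hc
    exact hfg (Subtype.ext (funext hc))
  obtain ⟨a, ha⟩ := this
  exact ⟨_, proj_hom A T k a, ha⟩

theorem exists_cls {M : Type u} (A : Alg M) (T : Set (Fm × Fm)) {k : ℕ} (f : FCar A T k) :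
    ∃ s, ∃ hs : s.Below k, f = cls A T s hs := by
  obtain ⟨s, hs, h⟩ := f.2
  exact ⟨s, hs, Subtype.ext h⟩

theorem cls_eq_iff (A : Alg (Fin n)) {T : Set (Fm × Fm)} (hT : Closed A T) {k : ℕ} {s t : Fm}
    (hs : s.Below k) (ht : t.Below k) : cls A T s hs = cls A T t ht ↔ (s, t) ∈ T := by
  constructor
  · intro h
    refine closed_sep A hT k (e := (s, t)) hs ht ?_
    intro a ha
    exact congrFun (congrArg Subtype.val h) ⟨a, ha⟩
  · intro h
    apply Subtype.ext
    funext a
    exact a.2 (s, t) h hs ht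

theorem eval_cls {M : Type u} (A : Alg M) (T : Set (Fm × Fm)) {k : ℕ} (σ : ℕ → Fm)
    (hσ : ∀ i, (σ i).Below k) (s : Fm) :
    (FAlg A T k).eval (fun i => cls A T (σ i) (hσ i)) s =
      cls A T (s.subst σ) (below_subst hσ s) := by
  apply Subtype.ext
  funext a
  refine ((proj_hom A T k a).eval (fun i => cls A T (σ i) (hσ i)) s).trans ?_
  show A.eval (fun i => A.eval (ext A a.1) (σ i)) s = A.eval (ext A a.1) (s.subst σ)
  rw [eval_subst]

instance (A : Alg (Fin n)) (T : Set (Fm × Fm)) (k : ℕ) : Finite (FCar A T k) := by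
  unfold FCar
  infer_instance

theorem card_FCar (A : Alg (Fin n)) (T : Set (Fm × Fm)) (k : ℕ) (hk : k ≤ n) :
    Nat.card (FCar A T k) ≤ n ^ (n ^ n) := by
  have hn : 0 < n := lt_of_le_of_lt (Nat.zero_le _) A.bot.2
  have h1 : Nat.card (FCar A T k) ≤ Nat.card (Sol A T k → Fin n) :=
    Nat.card_le_card_of_injective _ Subtype.val_injective
  have h2 : Nat.card (Sol A T k → Fin n) = n ^ Nat.card (Sol A T k) := by
    rw [Nat.card_fun]
    simp
  have h3 : Nat.card (Sol A T k) ≤ Nat.card (Fin k → Fin n) :=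
    Nat.card_le_card_of_injective _ Subtype.val_injective
  have h4 : Nat.card (Fin k → Fin n) = n ^ k := by
    rw [Nat.card_fun]
    simp
  calc Nat.card (FCar A T k) ≤ n ^ Nat.card (Sol A T k) := h1.trans h2.le
    _ ≤ n ^ (n ^ k) := Nat.pow_le_pow_right hn (h3.trans h4.le)
    _ ≤ n ^ (n ^ n) := Nat.pow_le_pow_right hn (Nat.pow_le_pow_right hn hk)

/-- transport of an algebra along a bijection -/
def Alg.map {M : Type u} {N : Type w} (A : Alg M) (e : M ≃ N) : Alg N where
  inf x y := e (A.inf (e.symm x) (e.symm y))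
  sup x y := e (A.sup (e.symm x) (e.symm y))
  imp x y := e (A.imp (e.symm x) (e.symm y))
  bot := e A.bot
  top := e A.top

theorem map_hom {M : Type u} {N : Type w} (A : Alg M) (e : M ≃ N) : IsHom A (A.map e) e :=
  ⟨by intro a b; simp [Alg.map], by intro a b; simp [Alg.map], by intro a b; simp [Alg.map],
    rfl, rfl⟩

theorem map_hom_symm {M : Type u} {N : Type w} (A : Alg M) (e : M ≃ N) :
    IsHom (A.map e) A e.symm :=
  ⟨by intro a b; simp [Alg.map], by intro a b; simp [Alg.map], by intro a b; simp [Alg.map],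
    by simp [Alg.map], by simp [Alg.map]⟩

theorem IsHom.comp {M N K : Type*} {A : Alg M} {B : Alg N} {C : Alg K} {g : N → K} {f : M → N}
    (hg : IsHom B C g) (hf : IsHom A B f) : IsHom A C (fun x => g (f x)) :=
  ⟨fun a b => by rw [hf.inf, hg.inf], fun a b => by rw [hf.sup, hg.sup],
    fun a b => by rw [hf.imp, hg.imp], by rw [hf.bot, hg.bot], by rw [hf.top, hg.top]⟩

theorem sep_comp {M N K : Type*} {A : Alg M} {B : Alg N} {C : Alg K} {f : M → N}
    (hf : IsHom A B f) (hi : Function.Injective f) (h : Sep B C) : Sep A C := by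
  intro x y hxy
  obtain ⟨g, hg, hne⟩ := h _ _ (hi.ne hxy)
  exact ⟨_, hg.comp hf, hne⟩

theorem sep_comp' {M N K : Type*} {A : Alg M} {B : Alg N} {C : Alg K} {f : N → K}
    (hf : IsHom B C f) (hi : Function.Injective f) (h : Sep A B) : Sep A C := by
  intro x y hxy
  obtain ⟨g, hg, hne⟩ := h _ _ hxy
  exact ⟨_, hf.comp hg, hi.ne hne⟩

/-- the criterion for arbitrary finite types -/
theorem crit_apply {A : Alg (Fin n)} (hA : Crit A) {M N : Type} [Finite M] [Finite N]
    (C : Alg M) (E : Alg N) (hM : Nat.card M ≤ n) (hN : Nat.card N ≤ n ^ (n ^ n))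
    (hC : Sep C A) (hE : Sep E A) (ho : Onto E C) : Sep C E := by
  let e1 := Finite.equivFin M
  let e2 := Finite.equivFin N
  have h := hA _ hM (C.map e1) (sep_comp (map_hom_symm C e1) e1.symm.injective hC) _ hN
    (E.map e2) (sep_comp (map_hom_symm E e2) e2.symm.injective hE) ?_
  · exact sep_comp (map_hom C e1) e1.injective
      (sep_comp' (map_hom_symm E e2) e2.symm.injective h)
  · obtain ⟨g, hg, hs⟩ := ho
    exact ⟨_, (map_hom C e1).comp (hg.comp (map_hom_symm E e2)),
      e1.surjective.comp (hs.comp e2.symm.surjective)⟩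

/-- The core: if the criterion holds for `A`, every failure of an equation in a closed theory `T`
is witnessed by a substitution into a closed theory `T'` all of whose instances lie in `T`. -/
theorem crit_core {A : Alg (Fin n)} (hA : Crit A) {T T' : Set (Fm × Fm)} (hT : Closed A T)
    (hT' : Closed A T')
    (hsub : ∀ e ∈ T', ∀ τ : ℕ → Fm, (e.1.subst τ, e.2.subst τ) ∈ T) {k : ℕ} {e : Fm × Fm}
    (h1 : e.1.Below k) (h2 : e.2.Below k) (he : e ∉ T) :
    ∃ σ : ℕ → Fm, (∀ p ∈ T, p.1.Below k → p.2.Below k → (p.1.subst σ, p.2.subst σ) ∈ T') ∧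
      (e.1.subst σ, e.2.subst σ) ∉ T' := by
  classical
  have : ∃ a ∈ Sol A T k, A.eval (ext A a) e.1 ≠ A.eval (ext A a) e.2 := by
    by_contra hc
    push Not at hc
    exact he (closed_sep A hT k h1 h2 hc)
  obtain ⟨a, ha, hne⟩ := this
  -- the subalgebra generated by `a`
  let CC : Type := {x : Fin n // ∃ s : Fm, s.Below k ∧ x = A.eval (ext A a) s}
  let C : Alg CC :=
    { inf := fun x y => ⟨A.inf x.1 y.1, by
        obtain ⟨s, hs, h1⟩ := x.2
        obtain ⟨t, ht, h2⟩ := y.2
        exact ⟨.and s t, ⟨hs, ht⟩, by rw [h1, h2]; rfl⟩⟩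
      sup := fun x y => ⟨A.sup x.1 y.1, by
        obtain ⟨s, hs, h1⟩ := x.2
        obtain ⟨t, ht, h2⟩ := y.2
        exact ⟨.or s t, ⟨hs, ht⟩, by rw [h1, h2]; rfl⟩⟩
      imp := fun x y => ⟨A.imp x.1 y.1, by
        obtain ⟨s, hs, h1⟩ := x.2
        obtain ⟨t, ht, h2⟩ := y.2
        exact ⟨.imp s t, ⟨hs, ht⟩, by rw [h1, h2]; rfl⟩⟩
      bot := ⟨A.bot, .bot, trivial, rfl⟩
      top := ⟨A.top, .top, trivial, rfl⟩ }
  have hincl : IsHom C A Subtype.val :=
    ⟨fun _ _ => rfl, fun _ _ => rfl, fun _ _ => rfl, rfl, rfl⟩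
  have hCA : Sep C A := by
    intro x y hxy
    exact ⟨_, hincl, Subtype.val_injective.ne hxy⟩
  have hcard : Nat.card CC ≤ n := by
    have := Nat.card_le_card_of_injective (Subtype.val : CC → Fin n) Subtype.val_injective
    simpa using this
  set c := Nat.card CC with hc
  let b : Fin c ≃ CC := (Finite.equivFin CC).symm
  -- representing formulas for the elements of `C`
  have hτ : ∀ i : ℕ, ∃ t : Fm, t.Below k ∧ (∀ h : i < c, (b ⟨i, h⟩).1 = A.eval (ext A a) t) ∧
      (¬ i < c → t = .bot) := by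
    intro i
    by_cases hi : i < c
    · obtain ⟨s, hs, h⟩ := (b ⟨i, hi⟩).2
      exact ⟨s, hs, fun _ => h, fun h => absurd hi h⟩
    · exact ⟨.bot, trivial, fun h => absurd h hi, fun _ => rfl⟩
  choose τ hτ1 hτ2 hτ3 using hτ
  have hb : ∀ s : Fm, A.eval (ext A (fun i => (b i).1)) s = A.eval (ext A a) (s.subst τ) := by
    intro s
    rw [eval_subst]
    congr 1
    funext i
    by_cases hi : i < c
    · simp only [ext, hi, dif_pos]
      rw [hτ2 i hi]
      try rfl
    · simp only [ext, hi, dif_neg, not_false_eq_true]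
      rw [hτ3 i hi]
      try rfl
  have hbsol : (fun i => (b i).1) ∈ Sol A T' c := by
    intro p hp _ _
    rw [hb, hb]
    exact ha _ (hsub p hp τ) (below_subst hτ1 _) (below_subst hτ1 _)
  have honto : Onto (FAlg A T' c) C := by
    refine ⟨fun f => ⟨f.1 ⟨_, hbsol⟩, ?_⟩, ?_, ?_⟩
    · obtain ⟨s, hs, h⟩ := f.2
      refine ⟨s.subst τ, below_subst hτ1 _, ?_⟩
      rw [h]
      exact hb s
    · exact ⟨fun _ _ => rfl, fun _ _ => rfl, fun _ _ => rfl, rfl, rfl⟩
    · intro x
      refine ⟨cls A T' (.var (b.symm x)) (b.symm x).2, ?_⟩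
      apply Subtype.ext
      simp [cls, Alg.eval, ext]
  have hsep : Sep C (FAlg A T' c) :=
    crit_apply hA C (FAlg A T' c) hcard (card_FCar A T' c hcard) hCA (sep_FAlg A T' c) honto
  -- the two separated elements
  have hxy : (⟨A.eval (ext A a) e.1, e.1, h1, rfl⟩ : CC) ≠ ⟨A.eval (ext A a) e.2, e.2, h2, rfl⟩ := by
    intro h
    exact hne (congrArg Subtype.val h)
  obtain ⟨g, hg, hgne⟩ := hsep _ _ hxy
  -- the generators in `C`
  have hbot : ∃ s : Fm, s.Below k ∧ A.bot = A.eval (ext A a) s := ⟨.bot, trivial, rfl⟩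
  let gen : ℕ → CC := fun i =>
    if h : i < k then ⟨a ⟨i, h⟩, .var i, h, by simp [Alg.eval, ext, h]⟩ else ⟨A.bot, hbot⟩
  have hgen : ∀ i, (gen i).1 = ext A a i := by
    intro i
    by_cases h : i < k
    · simp [gen, ext, h]
    · simp [gen, ext, h]
  have hgenev : ∀ s : Fm, (C.eval gen s).1 = A.eval (ext A a) s := by
    intro s
    have := hincl.eval gen s
    rw [this]
    congr 1
    funext i
    exact hgen i
  have hσ : ∀ i, ∃ s, ∃ hs : s.Below c, g (gen i) = cls A T' s hs := fun i => exists_cls A T' _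
  choose σ hσ1 hσ2 using hσ
  have hkey : ∀ s : Fm, g (C.eval gen s) = cls A T' (s.subst σ) (below_subst hσ1 s) := by
    intro s
    rw [hg.eval, ← eval_cls A T' σ hσ1]
    congr 1
    funext i
    exact hσ2 i
  refine ⟨σ, ?_, ?_⟩
  · intro p hp hp1 hp2
    rw [← cls_eq_iff A hT' (below_subst hσ1 _) (below_subst hσ1 _), ← hkey, ← hkey]
    congr 1
    apply Subtype.ext
    rw [hgenev, hgenev]
    exact ha p hp hp1 hp2
  · intro hmem
    rw [← cls_eq_iff A hT' (below_subst hσ1 _) (below_subst hσ1 _), ← hkey, ← hkey] at hmem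
    apply hgne
    have e1 : C.eval gen e.1 = ⟨A.eval (ext A a) e.1, e.1, h1, rfl⟩ :=
      Subtype.ext (hgenev _)
    have e2 : C.eval gen e.2 = ⟨A.eval (ext A a) e.2, e.2, h2, rfl⟩ :=
      Subtype.ext (hgenev _)
    rw [← e1, ← e2]
    exact hmem

end core

end Pool.Agent.Y549.HSC
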