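import Pool.Agent.Y549.HSC.Logic

set_option autoImplicit false

/-! # The structural completion of `⟨L(A), MP⟩` and free algebras -/

namespace Pool.Agent.Y549.HSC

universe u w

/-- `φ` is obtained from `L ∪ Γ` by modus ponens alone. -/
inductive MPDer (L Γ : Set Fm) : Fm → Prop
  | ax {φ : Fm} (h : φ ∈ L) : MPDer L Γ φ
  | hyp {φ : Fm} (h : φ ∈ Γ) : MPDer L Γ φ
  | mp {φ ψ : Fm} (h1 : MPDer L Γ (.imp φ ψ)) (h2 : MPDer L Γ φ) : MPDer L Γ ψ

theorem MPDer.mono {L Γ Δ : Set Fm} (h : Γ ⊆ Δ) {φ : Fm} (h1 : MPDer L Γ φ) : MPDer L Δ φ := by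
  induction h1 with
  | ax h => exact .ax h
  | hyp h' => exact .hyp (h h')
  | mp _ _ ih1 ih2 => exact .mp ih1 ih2

/-- The deductive system `⟨L, MP⟩`. -/
def mpSys (L : Set Fm) (hL : ∀ (σ : ℕ → Fm), ∀ φ ∈ L, φ.subst σ ∈ L) : DedSys where
  Ent Γ φ := MPDer L Γ φ
  refl := fun h => .hyp h
  mono := fun h h1 => h1.mono h
  cut := by
    intro Γ Δ φ h h1
    induction h1 with
    | ax h => exact .ax h
    | hyp h' => exact h _ h'
    | mp _ _ ih1 ih2 => exact .mp ih1 ih2
  struct := by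
    intro Γ φ σ h
    induction h with
    | ax h => exact .ax (hL σ _ h)
    | hyp h => exact .hyp ⟨_, h, rfl⟩
    | mp _ _ ih1 ih2 => exact .mp ih1 ih2
  fin := by
    intro Γ φ h
    induction h with
    | ax h => exact ⟨∅, Set.empty_subset _, Set.finite_empty, .ax h⟩
    | hyp h => exact ⟨{_}, by simpa using h, Set.finite_singleton _, .hyp rfl⟩
    | mp _ _ ih1 ih2 =>
      obtain ⟨D1, a1, a2, a3⟩ := ih1
      obtain ⟨D2, b1, b2, b3⟩ := ih2
      exact ⟨D1 ∪ D2, Set.union_subset a1 b1, a2.union b2,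
        .mp (a3.mono Set.subset_union_left) (b3.mono Set.subset_union_right)⟩

theorem log_subst {M : Type u} (A : Alg M) (σ : ℕ → Fm) : ∀ φ ∈ A.Log, φ.subst σ ∈ A.Log := by
  intro φ hφ v
  rw [eval_subst]
  exact hφ _

/-- The deductive system `⟨L(A), MP⟩`. -/
def logSys {M : Type u} (A : Alg M) : DedSys := mpSys A.Log (log_subst A)

/-- modus ponens is sound in `A` -/
def MPSound {M : Type u} (A : Alg M) : Prop := ∀ y : M, A.imp A.top y = A.top → y = A.top

theorem logSys_thm {M : Type u} (A : Alg M) (hA : MPSound A) (φ : Fm) :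
    (logSys A).Ent ∅ φ ↔ φ ∈ A.Log := by
  constructor
  · intro h
    have h' : MPDer A.Log ∅ φ := h
    clear h
    induction h' with
    | ax h => exact h
    | hyp h => exact absurd h (Set.notMem_empty _)
    | mp h1 h2 ih1 ih2 =>
      intro v
      have e1 := ih1 v
      have e2 := ih2 v
      simp only [Alg.eval] at e1
      rw [e2] at e1
      exact hA _ e1
  · intro h
    exact .ax h

theorem completion_ent (S : DedSys) {Γ : Set Fm} (hΓ : Γ.Finite) (φ : Fm) :
    S.completion.Ent Γ φ ↔ S.Admissible Γ φ := by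
  constructor
  · rintro ⟨Δ, h1, -, h3⟩ σ hσ
    exact h3 σ fun γ hγ => hσ γ (h1 hγ)
  · intro h
    exact ⟨Γ, subset_rfl, hΓ, h⟩

/-- The structural completion of `S` has the same theorems as `S`. -/
theorem completion_thm (S : DedSys) (φ : Fm) : S.completion.Ent ∅ φ ↔ S.Ent ∅ φ := by
  rw [completion_ent S Set.finite_empty]
  constructor
  · intro h
    have h1 := h .var (fun γ hγ => absurd hγ (Set.notMem_empty _))
    have h2 : ∀ s : Fm, s.subst .var = s := by
      intro s
      induction s with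
      | var i => rfl
      | bot => rfl
      | top => rfl
      | and a b iha ihb => simp only [Fm.subst, iha, ihb]
      | or a b iha ihb => simp only [Fm.subst, iha, ihb]
      | imp a b iha ihb => simp only [Fm.subst, iha, ihb]
    rwa [h2] at h1
  · intro h σ _
    have h1 := S.struct σ h
    rwa [Set.image_empty] at h1

/-- The structural completion of `S` is the largest deductive system with the same theorems. -/
theorem completion_largest (S S' : DedSys) (h : ∀ φ : Fm, S'.Ent ∅ φ ↔ S.Ent ∅ φ) :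
    S'.Le S.completion := by
  intro Γ φ hφ
  obtain ⟨Δ, h1, h2, h3⟩ := S'.fin hφ
  refine ⟨Δ, h1, h2, ?_⟩
  intro σ hσ
  rw [← h]
  refine S'.cut ?_ (S'.struct σ h3)
  rintro _ ⟨γ, hγ, rfl⟩
  rw [h]
  exact hσ γ hγ

/-- `F` is the free algebra, with free generators `g 0, …, g (n-1)`, of the variety generated by
the `n`-element algebra `A`. -/
structure IsFree {n : ℕ} (A : Alg (Fin n)) {N : Type u} (F : Alg N) (g : Fin n → N) : Prop where
  sep : Sep F A
  gen : ∀ P : N → Prop, P F.bot → P F.top → (∀ x y, P x → P y → P (F.inf x y)) →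
    (∀ x y, P x → P y → P (F.sup x y)) → (∀ x y, P x → P y → P (F.imp x y)) →
    (∀ i, P (g i)) → ∀ x, P x
  univ : ∀ a : Fin n → Fin n, ∃ h : N → Fin n, IsHom F A h ∧ ∀ i, h (g i) = a i

theorem IsFree.repr {n : ℕ} {A : Alg (Fin n)} {N : Type u} {F : Alg N} {g : Fin n → N}
    (hF : IsFree A F g) (x : N) : ∃ s : Fm, s.Below n ∧ F.eval (ext F g) s = x := by
  refine hF.gen (fun x => ∃ s : Fm, s.Below n ∧ F.eval (ext F g) s = x) ⟨.bot, trivial, rfl⟩
    ⟨.top, trivial, rfl⟩ ?_ ?_ ?_ ?_ x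
  · rintro x y ⟨s, hs, rfl⟩ ⟨t, ht, rfl⟩
    exact ⟨.and s t, ⟨hs, ht⟩, rfl⟩
  · rintro x y ⟨s, hs, rfl⟩ ⟨t, ht, rfl⟩
    exact ⟨.or s t, ⟨hs, ht⟩, rfl⟩
  · rintro x y ⟨s, hs, rfl⟩ ⟨t, ht, rfl⟩
    exact ⟨.imp s t, ⟨hs, ht⟩, rfl⟩
  · intro i
    exact ⟨.var i, i.2, by simp [Alg.eval, ext]⟩

theorem completion_free {n : ℕ} (A : Alg (Fin n)) (hMP : MPSound A) {N : Type u} {F : Alg N}
    {g : Fin n → N} (hF : IsFree A F g) (Γ : Set Fm) (φ : Fm) (hΓ : Γ.Finite) :
    (logSys A).completion.Ent Γ φ ↔ F.Val Γ φ := by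
  rw [completion_ent _ hΓ]
  constructor
  · intro h v hv
    choose σ hσ1 hσ2 using fun i => hF.repr (v i)
    have hev : ∀ s : Fm, F.eval (ext F g) (s.subst σ) = F.eval v s := by
      intro s
      rw [eval_subst]
      congr 1
      funext i
      exact hσ2 i
    have hlog : ∀ s : Fm, F.eval v s = F.top → s.subst σ ∈ A.Log := by
      intro s hs u
      obtain ⟨h, hh, hg⟩ := hF.univ (fun i => u i)
      have h1 := hh.eval (ext F g) (s.subst σ)
      rw [hev, hs, hh.top] at h1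
      rw [h1]
      refine eval_congr A ?_ _ (below_subst hσ1 s)
      intro i hi
      have := hg ⟨i, hi⟩
      simp only [ext, hi, dif_pos]
      exact this.symm
    have h1 := h σ (by
      intro γ hγ
      rw [logSys_thm A hMP]
      exact hlog γ (hv γ hγ))
    rw [logSys_thm A hMP] at h1
    rw [← hev]
    by_contra hne
    obtain ⟨p, hp, hpne⟩ := hF.sep _ _ hne
    apply hpne
    rw [hp.eval, hp.top]
    exact h1 _
  · intro h σ hσ
    rw [logSys_thm A hMP]
    intro u
    obtain ⟨p, hp, hpg⟩ := hF.univ (fun i => i)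
    have h1 := h (fun i => F.eval (fun j => g (u j)) (σ i)) (by
      intro γ hγ
      rw [← eval_subst]
      by_contra hne
      obtain ⟨q, hq, hqne⟩ := hF.sep _ _ hne
      apply hqne
      rw [hq.eval, hq.top]
      exact (logSys_thm A hMP _).1 (hσ γ hγ) _)
    rw [← eval_subst] at h1
    have h2 := hp.eval (fun j => g (u j)) (φ.subst σ)
    rw [h1, hp.top] at h2
    simp only [hpg] at h2
    exact h2.symm

theorem closed_satI {n : ℕ} (A : Alg (Fin n)) : Closed A {e | A.SatI e} := by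
  intro L e hL he v
  exact he v fun p hp => hL p hp v

theorem isFree_FAlg {n : ℕ} (A : Alg (Fin n)) :
    IsFree A (FAlg A {e | A.SatI e} n) (fun i => cls A _ (.var i) i.2) := by
  have hsol : ∀ a : Fin n → Fin n, a ∈ Sol A {e | A.SatI e} n := fun a e he _ _ => he _
  refine ⟨sep_FAlg _ _ _, ?_, ?_⟩
  · intro P hb ht hand hor himp hg x
    obtain ⟨s, hs, rfl⟩ := exists_cls A _ x
    induction s with
    | var i => exact hg ⟨i, hs⟩
    | bot => exact hb
    | top => exact ht
    | and a b iha ihb => exact hand _ _ (iha hs.1) (ihb hs.2)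
    | or a b iha ihb => exact hor _ _ (iha hs.1) (ihb hs.2)
    | imp a b iha ihb => exact himp _ _ (iha hs.1) (ihb hs.2)
  · intro a
    refine ⟨fun f => f.1 ⟨a, hsol a⟩, proj_hom _ _ _ _, ?_⟩
    intro i
    simp [cls, Alg.eval, ext]

theorem IsFree.map {n : ℕ} {A : Alg (Fin n)} {N : Type u} {K : Type w} {F : Alg N}
    {g : Fin n → N} (hF : IsFree A F g) (e : N ≃ K) : IsFree A (F.map e) (fun i => e (g i)) := by
  refine ⟨sep_comp (map_hom_symm F e) e.symm.injective hF.sep, ?_, ?_⟩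
  · intro P hb ht hand hor himp hg x
    have h := hF.gen (fun x => P (e x)) hb ht
      (fun x y hx hy => by simpa [Alg.map] using hand _ _ hx hy)
      (fun x y hx hy => by simpa [Alg.map] using hor _ _ hx hy)
      (fun x y hx hy => by simpa [Alg.map] using himp _ _ hx hy) hg (e.symm x)
    simpa using h
  · intro a
    obtain ⟨h, h1, h2⟩ := hF.univ a
    exact ⟨_, h1.comp (map_hom_symm F e), by simpa using h2⟩

theorem exists_free {n : ℕ} (A : Alg (Fin n)) : ∃ m ≤ n ^ (n ^ n), ∃ (F : Alg (Fin m))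
    (g : Fin n → Fin m), IsFree A F g :=
  ⟨_, card_FCar A {e | A.SatI e} n le_rfl, _, _, (isFree_FAlg A).map (Finite.equivFin _)⟩

/-- HSC of the structural completion of `⟨L(A), MP⟩` in terms of any free algebra on `n`
generators of the variety generated by `A`. -/
theorem hsc_completion_iff {n m : ℕ} (A : Alg (Fin n)) (hI : IffTop A) (hMP : MPSound A)
    {F : Alg (Fin m)} {g : Fin n → Fin m} (hF : IsFree A F g) :
    (logSys A).completion.HSC ↔ Crit F :=
  hsc_iff F (hF.sep.iffTop hI) _ (completion_free A hMP hF)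

/-- The algebra `A` is a Heyting algebra. -/
def IsHeyting {M : Type u} (A : Alg M) : Prop :=
  ∃ _ : HeytingAlgebra M, (∀ a b, A.inf a b = a ⊓ b) ∧ (∀ a b, A.sup a b = a ⊔ b) ∧
    (∀ a b, A.imp a b = a ⇨ b) ∧ A.bot = ⊥ ∧ A.top = ⊤

theorem IsHeyting.iffTop {M : Type u} {A : Alg M} (h : IsHeyting A) : IffTop A := by
  obtain ⟨_, h1, h2, h3, h4, h5⟩ := h
  intro x y
  rw [h1, h3, h3, h5, inf_eq_top_iff, himp_eq_top_iff, himp_eq_top_iff]
  exact ⟨fun h => le_antisymm h.1 h.2, fun h => ⟨h.le, h.ge⟩⟩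

theorem IsHeyting.mpSound {M : Type u} {A : Alg M} (h : IsHeyting A) : MPSound A := by
  obtain ⟨_, h1, h2, h3, h4, h5⟩ := h
  intro y
  rw [h3, h5, himp_eq_top_iff]
  exact top_le_iff.1

end Pool.Agent.Y549.HSC
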