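import Pool.Agent.Y549.HSC.Prim
import Pool.Agent.Y549.HSC.Comp

set_option autoImplicit false

/-! # Codes of finite algebras and computability of the criterion -/

namespace Pool.Agent.Y549.HSC

/-- Codes of finite algebras: the number `n` of elements (the elements being `0, …, n-1`), the
tables of `∧`, `∨`, `→` (each one a list of `n` rows of length `n`), the elements `0` and `1`. -/
abbrev Code := ℕ × List (List ℕ) × List (List ℕ) × List (List ℕ) × ℕ × ℕ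

/-- the table of a binary operation, as a list of rows -/
def table {n : ℕ} (f : Fin n → Fin n → Fin n) : List (List ℕ) :=
  List.ofFn fun i => List.ofFn fun j => (f i j : ℕ)

/-- the code (operation tables) of a finite algebra -/
def code {n : ℕ} (A : Alg (Fin n)) : Code :=
  (n, table A.inf, table A.sup, table A.imp, (A.bot : ℕ), (A.top : ℕ))

theorem table_getD {n : ℕ} (f : Fin n → Fin n → Fin n) (i j : Fin n) :
    ((table f).getD i []).getD j 0 = f i j := by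
  unfold table
  simp [List.getD_eq_getElem?_getD]

/-- `j`-th digit -/
def fn (b x i : ℕ) : ℕ := x / b ^ i % b
/-- entry of a table coded by a number -/
def tb (b x i j : ℕ) : ℕ := fn b x (i * b + j)

theorem fn_surj {b L : ℕ} (f : Fin L → Fin b) : ∃ x < b ^ L, ∀ i : Fin L, fn b x i = f i := by
  refine ⟨finFunctionFinEquiv f, (finFunctionFinEquiv f).2, ?_⟩
  intro i
  have h := congrFun (finFunctionFinEquiv.symm_apply_apply f) i
  have h2 := congrArg Fin.val h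
  rw [← h2]
  rfl

theorem tb_surj {m : ℕ} (f : Fin m → Fin m → Fin m) :
    ∃ x < m ^ (m * m), ∀ i j : Fin m, tb m x i j = f i j := by
  obtain ⟨x, hx, h⟩ := fn_surj (b := m) (L := m * m)
    (fun k => f ⟨k / m, Nat.div_lt_of_lt_mul k.2⟩ ⟨k % m, Nat.mod_lt _ (by
      rcases Nat.eq_zero_or_pos m with rfl | h
      · exact absurd k.2 (by simp)
      · exact h)⟩)
  refine ⟨x, hx, ?_⟩
  intro i j
  have hm : 0 < m := lt_of_le_of_lt (Nat.zero_le _) i.2
  have hlt : (i : ℕ) * m + j < m * m := by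
    calc (i : ℕ) * m + j < i * m + m := by omega
      _ = (i + 1) * m := by ring
      _ ≤ m * m := Nat.mul_le_mul_right _ i.2
  have h1 := h ⟨(i : ℕ) * m + j, hlt⟩
  unfold tb
  simp only at h1
  rw [h1]
  have e1 : ((i : ℕ) * m + j) / m = i := by
    rw [Nat.add_comm, Nat.add_mul_div_right _ _ hm, Nat.div_eq_of_lt j.2, zero_add]
  have e2 : ((i : ℕ) * m + j) % m = j := by
    rw [Nat.add_comm, Nat.add_mul_mod_self_right, Nat.mod_eq_of_lt j.2]
  congr 2 <;> · apply Fin.ext; assumption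

/-- numerical codes of finite algebras -/
abbrev N6 := ℕ × ℕ × ℕ × ℕ × ℕ × ℕ

/-- `X` is a numerical code of `A` -/
def Codes (X : N6) {k : ℕ} (A : Alg (Fin k)) : Prop :=
  X.1 = k ∧ (∀ i j : Fin k, tb k X.2.1 i j = A.inf i j) ∧
    (∀ i j : Fin k, tb k X.2.2.1 i j = A.sup i j) ∧
    (∀ i j : Fin k, tb k X.2.2.2.1 i j = A.imp i j) ∧
    X.2.2.2.2.1 = A.bot ∧ X.2.2.2.2.2 = A.top

theorem codes_exists {k : ℕ} (A : Alg (Fin k)) : ∃ x < k ^ (k * k), ∃ y < k ^ (k * k),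
    ∃ z < k ^ (k * k), ∃ p < k, ∃ q < k, Codes (k, x, y, z, p, q) A := by
  obtain ⟨x, hx, h1⟩ := tb_surj A.inf
  obtain ⟨y, hy, h2⟩ := tb_surj A.sup
  obtain ⟨z, hz, h3⟩ := tb_surj A.imp
  exact ⟨x, hx, y, hy, z, hz, A.bot, A.bot.2, A.top, A.top.2, rfl, h1, h2, h3, rfl, rfl⟩

theorem codes_of (k x y z : ℕ) {p q : ℕ} (hp : p < k) (hq : q < k) :
    ∃ A : Alg (Fin k), Codes (k, x, y, z, p, q) A := by
  have hk : 0 < k := lt_of_le_of_lt (Nat.zero_le _) hp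
  exact ⟨⟨fun i j => ⟨tb k x i j, Nat.mod_lt _ hk⟩, fun i j => ⟨tb k y i j, Nat.mod_lt _ hk⟩,
    fun i j => ⟨tb k z i j, Nat.mod_lt _ hk⟩, ⟨p, hp⟩, ⟨q, hq⟩⟩, rfl, fun _ _ => rfl,
    fun _ _ => rfl, fun _ _ => rfl, rfl, rfl⟩

/-- quantifier over all algebras on `k` elements -/
def BallAlg (k : ℕ) (P : N6 → Prop) : Prop :=
  Ball (k ^ (k * k)) fun x => Ball (k ^ (k * k)) fun y => Ball (k ^ (k * k)) fun z =>
    Ball k fun p => Ball k fun q => P (k, x, y, z, p, q)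

/-- quantifier over all algebras on `k` elements -/
def BexAlg (k : ℕ) (P : N6 → Prop) : Prop :=
  Bex (k ^ (k * k)) fun x => Bex (k ^ (k * k)) fun y => Bex (k ^ (k * k)) fun z =>
    Bex k fun p => Bex k fun q => P (k, x, y, z, p, q)

theorem ballAlg_iff {k : ℕ} {P : N6 → Prop} {Q : Alg (Fin k) → Prop}
    (h : ∀ (X : N6) (A : Alg (Fin k)), Codes X A → (P X ↔ Q A)) :
    BallAlg k P ↔ ∀ A : Alg (Fin k), Q A := by
  constructor
  · intro h1 A
    obtain ⟨x, hx, y, hy, z, hz, p, hp, q, hq, hc⟩ := codes_exists A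
    exact (h _ A hc).1 (h1 x hx y hy z hz p hp q hq)
  · intro h1 x hx y hy z hz p hp q hq
    obtain ⟨A, hA⟩ := codes_of k x y z hp hq
    exact (h _ A hA).2 (h1 A)

theorem bexAlg_iff {k : ℕ} {P : N6 → Prop} {Q : Alg (Fin k) → Prop}
    (h : ∀ (X : N6) (A : Alg (Fin k)), Codes X A → (P X ↔ Q A)) :
    BexAlg k P ↔ ∃ A : Alg (Fin k), Q A := by
  constructor
  · rintro ⟨x, hx, y, hy, z, hz, p, hp, q, hq, h1⟩
    obtain ⟨A, hA⟩ := codes_of k x y z hp hq
    exact ⟨A, (h _ A hA).1 h1⟩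
  · rintro ⟨A, h1⟩
    obtain ⟨x, hx, y, hy, z, hz, p, hp, q, hq, hc⟩ := codes_exists A
    exact ⟨x, hx, y, hy, z, hz, p, hp, q, hq, (h _ A hc).2 h1⟩

theorem bex_fun_iff {k m : ℕ} (hm : 0 < m) {P : ℕ → Prop} {Q : (Fin k → Fin m) → Prop}
    (h : ∀ (x : ℕ) (f : Fin k → Fin m), (∀ i : Fin k, fn m x i = f i) → (P x ↔ Q f)) :
    Bex (m ^ k) P ↔ ∃ f, Q f := by
  constructor
  · rintro ⟨x, -, h1⟩
    exact ⟨fun i => ⟨fn m x i, Nat.mod_lt _ hm⟩, (h x _ fun _ => rfl).1 h1⟩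
  · rintro ⟨f, h1⟩
    obtain ⟨x, hx, h2⟩ := fn_surj f
    exact ⟨x, hx, (h x f h2).2 h1⟩

theorem ball_fun_iff {k m : ℕ} (hm : 0 < m) {P : ℕ → Prop} {Q : (Fin k → Fin m) → Prop}
    (h : ∀ (x : ℕ) (f : Fin k → Fin m), (∀ i : Fin k, fn m x i = f i) → (P x ↔ Q f)) :
    Ball (m ^ k) P ↔ ∀ f, Q f := by
  constructor
  · intro h1 f
    obtain ⟨x, hx, h2⟩ := fn_surj f
    exact (h x f h2).1 (h1 x hx)
  · intro h1 x _
    exact (h x (fun i => ⟨fn m x i, Nat.mod_lt _ hm⟩) fun _ => rfl).2 (h1 _)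

theorem ball_fin_iff {k : ℕ} {P : ℕ → Prop} {Q : Fin k → Prop}
    (h : ∀ i : Fin k, P i ↔ Q i) : Ball k P ↔ ∀ i, Q i :=
  ⟨fun h1 i => (h i).1 (h1 i i.2), fun h1 i hi => (h ⟨i, hi⟩).2 (h1 _)⟩

theorem bex_fin_iff {k : ℕ} {P : ℕ → Prop} {Q : Fin k → Prop}
    (h : ∀ i : Fin k, P i ↔ Q i) : Bex k P ↔ ∃ i, Q i :=
  ⟨fun ⟨i, hi, h1⟩ => ⟨⟨i, hi⟩, (h ⟨i, hi⟩).1 h1⟩, fun ⟨i, h1⟩ => ⟨i, i.2, (h i).2 h1⟩⟩

theorem imp_congr' {p q p' q' : Prop} (h1 : p ↔ p') (h2 : q ↔ q') : Imp p q ↔ (p' → q') := by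
  unfold Imp
  rw [h1, h2]

/-- `h` codes a homomorphism -/
def HomN (X Y : N6) (h : ℕ) : Prop :=
  (Ball X.1 fun i => Ball X.1 fun j =>
    fn Y.1 h (tb X.1 X.2.1 i j) = tb Y.1 Y.2.1 (fn Y.1 h i) (fn Y.1 h j) ∧
    fn Y.1 h (tb X.1 X.2.2.1 i j) = tb Y.1 Y.2.2.1 (fn Y.1 h i) (fn Y.1 h j) ∧
    fn Y.1 h (tb X.1 X.2.2.2.1 i j) = tb Y.1 Y.2.2.2.1 (fn Y.1 h i) (fn Y.1 h j)) ∧
  fn Y.1 h X.2.2.2.2.1 = Y.2.2.2.2.1 ∧ fn Y.1 h X.2.2.2.2.2 = Y.2.2.2.2.2

/-- separation -/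
def SepN (X Y : N6) : Prop :=
  Ball X.1 fun i => Ball X.1 fun j => Imp (i ≠ j)
    (Bex (Y.1 ^ X.1) fun h => HomN X Y h ∧ fn Y.1 h i ≠ fn Y.1 h j)

/-- homomorphic image -/
def OntoN (X Y : N6) : Prop :=
  Bex (Y.1 ^ X.1) fun h => HomN X Y h ∧ Ball Y.1 fun i => Bex X.1 fun j => fn Y.1 h j = i

/-- the criterion -/
def CritN (A : N6) : Prop :=
  Ball (A.1 + 1) fun k => BallAlg k fun C => Imp (SepN C A)
    (Ball (A.1 ^ (A.1 ^ A.1) + 1) fun m => BallAlg m fun E =>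
      Imp (SepN E A) (Imp (OntoN E C) (SepN C E)))

/-- generation by `n` elements -/
def GenN (F : N6) (n g : ℕ) : Prop :=
  Ball (2 ^ F.1) fun P => Imp
    (fn 2 P F.2.2.2.2.1 = 1 ∧ fn 2 P F.2.2.2.2.2 = 1 ∧
      (Ball F.1 fun i => Ball F.1 fun j => Imp (fn 2 P i = 1) (Imp (fn 2 P j = 1)
        (fn 2 P (tb F.1 F.2.1 i j) = 1 ∧ fn 2 P (tb F.1 F.2.2.1 i j) = 1 ∧
          fn 2 P (tb F.1 F.2.2.2.1 i j) = 1))) ∧
      Ball n fun i => fn 2 P (fn F.1 g i) = 1)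
    (Ball F.1 fun i => fn 2 P i = 1)

/-- freeness -/
def FreeN (A F : N6) (g : ℕ) : Prop :=
  SepN F A ∧ GenN F A.1 g ∧ Ball (A.1 ^ A.1) fun a => Bex (A.1 ^ F.1) fun h =>
    HomN F A h ∧ Ball A.1 fun i => fn A.1 h (fn F.1 g i) = fn A.1 a i

theorem pos_of_codes {k : ℕ} (A : Alg (Fin k)) : 0 < k := lt_of_le_of_lt (Nat.zero_le _) A.bot.2

theorem homN_iff {X Y : N6} {k m : ℕ} {A : Alg (Fin k)} {B : Alg (Fin m)} (hX : Codes X A)
    (hY : Codes Y B) (h : ℕ) (f : Fin k → Fin m) (hf : ∀ i : Fin k, fn m h i = f i) :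
    HomN X Y h ↔ IsHom A B f := by
  obtain ⟨rfl, a1, a2, a3, a4, a5⟩ := hX
  obtain ⟨rfl, b1, b2, b3, b4, b5⟩ := hY
  unfold HomN
  constructor
  · rintro ⟨h1, h2, h3⟩
    refine ⟨?_, ?_, ?_, ?_, ?_⟩
    · intro i j
      have := (h1 i i.2 j j.2).1
      rw [a1, hf, hf, hf, b1] at this
      exact Fin.ext this
    · intro i j
      have := (h1 i i.2 j j.2).2.1
      rw [a2, hf, hf, hf, b2] at this
      exact Fin.ext this
    · intro i j
      have := (h1 i i.2 j j.2).2.2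
      rw [a3, hf, hf, hf, b3] at this
      exact Fin.ext this
    · rw [a4, hf, b4] at h2
      exact Fin.ext h2
    · rw [a5, hf, b5] at h3
      exact Fin.ext h3
  · intro h1
    refine ⟨?_, ?_, ?_⟩
    · intro i hi j hj
      have e1 := a1 ⟨i, hi⟩ ⟨j, hj⟩
      have e2 := a2 ⟨i, hi⟩ ⟨j, hj⟩
      have e3 := a3 ⟨i, hi⟩ ⟨j, hj⟩
      have f1 := hf ⟨i, hi⟩
      have f2 := hf ⟨j, hj⟩
      simp only at e1 e2 e3 f1 f2
      rw [e1, e2, e3, f1, f2, hf, hf, hf, b1, b2, b3, h1.inf, h1.sup, h1.imp]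
      exact ⟨rfl, rfl, rfl⟩
    · rw [a4, hf, b4, h1.bot]
    · rw [a5, hf, b5, h1.top]

theorem sepN_iff {X Y : N6} {k m : ℕ} {A : Alg (Fin k)} {B : Alg (Fin m)} (hX : Codes X A)
    (hY : Codes Y B) : SepN X Y ↔ Sep A B := by
  unfold SepN Sep
  rw [hX.1, hY.1]
  refine ball_fin_iff fun i => ball_fin_iff fun j => ?_
  refine imp_congr' (by rw [Ne, Fin.val_inj]) ?_
  refine bex_fun_iff (pos_of_codes B) ?_
  intro h f hf
  rw [homN_iff hX hY h f hf, hf, hf, Ne, Fin.val_inj]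

theorem ontoN_iff {X Y : N6} {k m : ℕ} {A : Alg (Fin k)} {B : Alg (Fin m)} (hX : Codes X A)
    (hY : Codes Y B) : OntoN X Y ↔ Onto A B := by
  unfold OntoN Onto
  rw [hX.1, hY.1]
  refine bex_fun_iff (pos_of_codes B) ?_
  intro h f hf
  rw [homN_iff hX hY h f hf]
  refine and_congr Iff.rfl ?_
  refine ball_fin_iff fun i => bex_fin_iff fun j => ?_
  rw [hf, Fin.val_inj]

theorem critN_iff {X : N6} {n : ℕ} {A : Alg (Fin n)} (hX : Codes X A) : CritN X ↔ Crit A := by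
  unfold CritN Crit
  rw [hX.1]
  constructor
  · intro h k hk C hC m hm E hE ho
    have h1 := h k (Nat.lt_succ_of_le hk)
    beta_reduce at h1
    rw [ballAlg_iff (Q := fun C => Sep C A → ∀ m < n ^ n ^ n + 1, ∀ E : Alg (Fin m), Sep E A →
      Onto E C → Sep C E)] at h1
    · exact h1 C hC m (Nat.lt_succ_of_le hm) E hE ho
    · intro X' C' hC'
      refine imp_congr' (sepN_iff hC' hX) ?_
      refine forall_congr' fun m' => forall_congr' fun _ => ?_
      refine ballAlg_iff ?_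
      intro X'' E' hE'
      exact imp_congr' (sepN_iff hE' hX) (imp_congr' (ontoN_iff hE' hC') (sepN_iff hC' hE'))
  · intro h k hk
    rw [ballAlg_iff (Q := fun C => Sep C A → ∀ m < n ^ n ^ n + 1, ∀ E : Alg (Fin m), Sep E A →
      Onto E C → Sep C E)]
    · intro C hC m hm E hE ho
      exact h k (Nat.le_of_lt_succ hk) C hC m (Nat.le_of_lt_succ hm) E hE ho
    · intro X' C' hC'
      refine imp_congr' (sepN_iff hC' hX) ?_
      refine forall_congr' fun m' => forall_congr' fun _ => ?_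
      refine ballAlg_iff ?_
      intro X'' E' hE'
      exact imp_congr' (sepN_iff hE' hX) (imp_congr' (ontoN_iff hE' hC') (sepN_iff hC' hE'))

theorem genN_iff {F : N6} {m n : ℕ} {B : Alg (Fin m)} (hF : Codes F B) (g : ℕ)
    (g' : Fin n → Fin m) (hg : ∀ i : Fin n, fn m g i = g' i) :
    GenN F n g ↔ ∀ P : Fin m → Prop, P B.bot → P B.top → (∀ x y, P x → P y → P (B.inf x y)) →
    (∀ x y, P x → P y → P (B.sup x y)) → (∀ x y, P x → P y → P (B.imp x y)) →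
    (∀ i, P (g' i)) → ∀ x, P x := by
  classical
  obtain ⟨rfl, b1, b2, b3, b4, b5⟩ := hF
  constructor
  · intro h P hb ht hi hs hp hgen
    obtain ⟨x, hx, h1⟩ := fn_surj (b := 2) (L := F.1) (fun i => if P i then 1 else 0)
    have h2 : ∀ i : Fin F.1, fn 2 x i = 1 ↔ P i := by
      intro i
      rw [h1]
      by_cases hP : P i <;> simp [hP]
    have h3 := h x hx ⟨?_, ?_, ?_, ?_⟩
    · intro y
      exact (h2 y).1 (h3 y y.2)
    · rw [b4, h2]
      exact hb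
    · rw [b5, h2]
      exact ht
    · intro i hi' j hj'
      have e1 := b1 ⟨i, hi'⟩ ⟨j, hj'⟩
      have e2 := b2 ⟨i, hi'⟩ ⟨j, hj'⟩
      have e3 := b3 ⟨i, hi'⟩ ⟨j, hj'⟩
      simp only at e1 e2 e3
      rw [e1, e2, e3, h2, h2, h2]
      intro q1 q2
      have q1' := (h2 ⟨i, hi'⟩).1 q1
      have q2' := (h2 ⟨j, hj'⟩).1 q2
      exact ⟨hi _ _ q1' q2', hs _ _ q1' q2', hp _ _ q1' q2'⟩
    · intro i hi'
      have e1 := hg ⟨i, hi'⟩
      simp only at e1
      rw [e1, h2]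
      exact hgen _
  · intro h x _ hx i hi
    obtain ⟨h1, h2, h3, h4⟩ := hx
    refine h (fun i => fn 2 x i = 1) ?_ ?_ ?_ ?_ ?_ ?_ ⟨i, hi⟩
    · rw [b4] at h1
      exact h1
    · rw [b5] at h2
      exact h2
    · intro y z hy hz
      have := (h3 y y.2 z z.2 hy hz).1
      rw [b1] at this
      exact this
    · intro y z hy hz
      have := (h3 y y.2 z z.2 hy hz).2.1
      rw [b2] at this
      exact this
    · intro y z hy hz
      have := (h3 y y.2 z z.2 hy hz).2.2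
      rw [b3] at this
      exact this
    · intro i
      have := h4 i i.2
      beta_reduce at this
      rw [hg] at this
      exact this

theorem freeN_iff {X F : N6} {n m : ℕ} {A : Alg (Fin n)} {B : Alg (Fin m)} (hX : Codes X A)
    (hF : Codes F B) (g : ℕ) (g' : Fin n → Fin m) (hg : ∀ i : Fin n, fn m g i = g' i) :
    FreeN X F g ↔ IsFree A B g' := by
  have h1 : (Ball (n ^ n) fun a => Bex (n ^ m) fun h => HomN F X h ∧
      Ball n fun i => fn n h (fn m g i) = fn n a i) ↔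
      ∀ a : Fin n → Fin n, ∃ h : Fin m → Fin n, IsHom B A h ∧ ∀ i, h (g' i) = a i := by
    refine ball_fun_iff (pos_of_codes A) ?_
    intro a a' ha
    refine bex_fun_iff (pos_of_codes A) ?_
    intro h h' hh
    rw [homN_iff hF hX h h' hh]
    refine and_congr Iff.rfl ?_
    refine ball_fin_iff fun i => ?_
    rw [hg, hh, ha, Fin.val_inj]
  have h2 := genN_iff (n := n) hF g g' hg
  unfold FreeN
  rw [hX.1, hF.1, h1, h2, sepN_iff hF hX]
  exact ⟨fun h => ⟨h.1, h.2.1, h.2.2⟩, fun h => ⟨h.1, h.2, h.3⟩⟩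

/-- the list code `c` and the numerical code `X` describe the same tables -/
def EqTab (X : N6) (c : Code) : Prop :=
  X.1 = c.1 ∧ (Ball c.1 fun i => Ball c.1 fun j =>
    tb X.1 X.2.1 i j = (c.2.1.getD i []).getD j 0 ∧
    tb X.1 X.2.2.1 i j = (c.2.2.1.getD i []).getD j 0 ∧
    tb X.1 X.2.2.2.1 i j = (c.2.2.2.1.getD i []).getD j 0) ∧
  X.2.2.2.2.1 = c.2.2.2.2.1 ∧ X.2.2.2.2.2 = c.2.2.2.2.2

theorem eqTab_iff {X : N6} {n : ℕ} {A B : Alg (Fin n)} (hX : Codes X B) :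
    EqTab X (code A) ↔ B = A := by
  obtain ⟨rfl, b1, b2, b3, b4, b5⟩ := hX
  unfold EqTab code
  constructor
  · rintro ⟨-, h1, h2, h3⟩
    simp only at h1 h2 h3
    refine Alg.ext ?_ ?_ ?_ ?_ ?_
    · funext i j
      have := (h1 i i.2 j j.2).1
      rw [b1, table_getD] at this
      exact Fin.ext this
    · funext i j
      have := (h1 i i.2 j j.2).2.1
      rw [b2, table_getD] at this
      exact Fin.ext this
    · funext i j
      have := (h1 i i.2 j j.2).2.2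
      rw [b3, table_getD] at this
      exact Fin.ext this
    · rw [b4] at h2
      exact Fin.ext h2
    · rw [b5] at h3
      exact Fin.ext h3
  · rintro rfl
    refine ⟨rfl, ?_, b4, b5⟩
    intro i hi j hj
    have e1 := b1 ⟨i, hi⟩ ⟨j, hj⟩
    have e2 := b2 ⟨i, hi⟩ ⟨j, hj⟩
    have e3 := b3 ⟨i, hi⟩ ⟨j, hj⟩
    have f1 := table_getD B.inf ⟨i, hi⟩ ⟨j, hj⟩
    have f2 := table_getD B.sup ⟨i, hi⟩ ⟨j, hj⟩
    have f3 := table_getD B.imp ⟨i, hi⟩ ⟨j, hj⟩
    simp only at e1 e2 e3 f1 f2 f3 ⊢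
    rw [e1, e2, e3, f1, f2, f3]
    exact ⟨rfl, rfl, rfl⟩

/-- decision procedure for primitivity -/
def D1 (c : Code) : Prop := BexAlg c.1 fun X => EqTab X c ∧ CritN X

/-- decision procedure for the second problem -/
def D2 (c : Code) : Prop := BexAlg c.1 fun X => EqTab X c ∧
  Bex (c.1 ^ (c.1 ^ c.1) + 1) fun m => BexAlg m fun F => Bex (m ^ c.1) fun g =>
    FreeN X F g ∧ CritN F

theorem D1_iff {n : ℕ} (A : Alg (Fin n)) : D1 (code A) ↔ Crit A := by
  have : BexAlg n (fun X => EqTab X (code A) ∧ CritN X) ↔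
      ∃ B : Alg (Fin n), B = A ∧ Crit B := by
    refine bexAlg_iff ?_
    intro X B hB
    rw [eqTab_iff hB, critN_iff hB]
  refine this.trans ?_
  simp

theorem D2_iff {n : ℕ} (A : Alg (Fin n)) : D2 (code A) ↔
    ∃ m < n ^ (n ^ n) + 1, ∃ F : Alg (Fin m), ∃ g : Fin n → Fin m, IsFree A F g ∧ Crit F := by
  have : BexAlg n (fun X => EqTab X (code A) ∧
      Bex (n ^ (n ^ n) + 1) fun m => BexAlg m fun F =>
        Bex (m ^ n) fun g => FreeN X F g ∧ CritN F) ↔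
      ∃ B : Alg (Fin n), B = A ∧ ∃ m < n ^ (n ^ n) + 1, ∃ F : Alg (Fin m),
        ∃ g : Fin n → Fin m, IsFree B F g ∧ Crit F := by
    refine bexAlg_iff ?_
    intro X B hB
    rw [eqTab_iff hB]
    refine and_congr Iff.rfl ?_
    refine exists_congr fun m => and_congr Iff.rfl ?_
    refine bexAlg_iff ?_
    intro F C hC
    refine bex_fun_iff (pos_of_codes C) ?_
    intro g g' hg
    rw [freeN_iff hB hC g g' hg, critN_iff hC]
  refine this.trans ?_
  simp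

section computability

variable {α : Type} [Primcodable α]

@[fun_prop] theorem PR.fn' {b x i : α → ℕ} (hb : PR b) (hx : PR x) (hi : PR i) :
    PR (fun a => fn (b a) (x a) (i a)) := by
  unfold fn
  fun_prop

@[fun_prop] theorem PR.tb' {b x i j : α → ℕ} (hb : PR b) (hx : PR x) (hi : PR i) (hj : PR j) :
    PR (fun a => tb (b a) (x a) (i a) (j a)) := by
  unfold tb
  fun_prop

@[fun_prop] theorem PP.homN' {X Y : α → N6} {h : α → ℕ} (hX : PR X) (hY : PR Y) (hh : PR h) :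
    PP (fun a => HomN (X a) (Y a) (h a)) := by
  unfold HomN
  fun_prop

@[fun_prop] theorem PP.sepN' {X Y : α → N6} (hX : PR X) (hY : PR Y) :
    PP (fun a => SepN (X a) (Y a)) := by
  unfold SepN
  fun_prop

@[fun_prop] theorem PP.ontoN' {X Y : α → N6} (hX : PR X) (hY : PR Y) :
    PP (fun a => OntoN (X a) (Y a)) := by
  unfold OntoN
  fun_prop

theorem PP.ballAlg' {f : α → ℕ} {P : α → N6 → Prop} (hf : PR f)
    (hP : PP (fun ax : α × N6 => P ax.1 ax.2)) : PP (fun a => BallAlg (f a) (P a)) := by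
  unfold BallAlg
  refine PP.ball' (by fun_prop) (PP.ball' (by fun_prop) (PP.ball' (by fun_prop)
    (PP.ball' (by fun_prop) (PP.ball' (by fun_prop) ?_))))
  exact PP.comp' (p := fun ax : α × N6 => P ax.1 ax.2)
    (f := fun a : ((((α × ℕ) × ℕ) × ℕ) × ℕ) × ℕ => (a.1.1.1.1.1,
      (f a.1.1.1.1.1, a.1.1.1.1.2, a.1.1.1.2, a.1.1.2, a.1.2, a.2))) hP (by fun_prop)

theorem PP.bexAlg' {f : α → ℕ} {P : α → N6 → Prop} (hf : PR f)
    (hP : PP (fun ax : α × N6 => P ax.1 ax.2)) : PP (fun a => BexAlg (f a) (P a)) := by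
  unfold BexAlg
  refine PP.bex' (by fun_prop) (PP.bex' (by fun_prop) (PP.bex' (by fun_prop)
    (PP.bex' (by fun_prop) (PP.bex' (by fun_prop) ?_))))
  exact PP.comp' (p := fun ax : α × N6 => P ax.1 ax.2)
    (f := fun a : ((((α × ℕ) × ℕ) × ℕ) × ℕ) × ℕ => (a.1.1.1.1.1,
      (f a.1.1.1.1.1, a.1.1.1.1.2, a.1.1.1.2, a.1.1.2, a.1.2, a.2))) hP (by fun_prop)

@[fun_prop] theorem PP.critN' {X : α → N6} (hX : PR X) : PP (fun a => CritN (X a)) := by
  unfold CritN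
  refine PP.ball' (by fun_prop) (PP.ballAlg' (by fun_prop) (PP.imp' (by fun_prop)
    (PP.ball' (by fun_prop) (PP.ballAlg' (by fun_prop) (by fun_prop)))))

@[fun_prop] theorem PP.genN' {F : α → N6} {n g : α → ℕ} (hF : PR F) (hn : PR n) (hg : PR g) :
    PP (fun a => GenN (F a) (n a) (g a)) := by
  unfold GenN
  fun_prop

@[fun_prop] theorem PP.freeN' {A F : α → N6} {g : α → ℕ} (hA : PR A) (hF : PR F) (hg : PR g) :
    PP (fun a => FreeN (A a) (F a) (g a)) := by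
  unfold FreeN
  fun_prop

@[fun_prop] theorem PP.eqTab' {X : α → N6} {c : α → Code} (hX : PR X) (hc : PR c) :
    PP (fun a => EqTab (X a) (c a)) := by
  unfold EqTab
  fun_prop

theorem pp_D1 : PP D1 := by
  unfold D1
  exact PP.bexAlg' (by fun_prop) (by fun_prop)

theorem pp_D2 : PP D2 := by
  unfold D2
  refine PP.bexAlg' (by fun_prop) (PP.and' (by fun_prop) (PP.bex' (by fun_prop)
    (PP.bexAlg' (by fun_prop) (PP.bex' (by fun_prop) (by fun_prop)))))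

end computability

end Pool.Agent.Y549.HSC
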