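import Pool.Agent.Y549.HSC.Quasi

set_option autoImplicit false

/-! # Deductive systems, admissible rules, hereditary structural completeness -/

namespace Pool.Agent.Y549.HSC

universe u w

/-- A deductive system: a finitary, substitution-invariant consequence relation on formulas. -/
structure DedSys where
  /-- `Ent Γ φ`: the formula `φ` follows from the set `Γ` -/
  Ent : Set Fm → Fm → Prop
  refl : ∀ {Γ : Set Fm} {φ : Fm}, φ ∈ Γ → Ent Γ φ
  mono : ∀ {Γ Δ : Set Fm} {φ : Fm}, Γ ⊆ Δ → Ent Γ φ → Ent Δ φ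
  cut : ∀ {Γ Δ : Set Fm} {φ : Fm}, (∀ ψ ∈ Δ, Ent Γ ψ) → Ent Δ φ → Ent Γ φ
  struct : ∀ {Γ : Set Fm} {φ : Fm} (σ : ℕ → Fm), Ent Γ φ → Ent (Fm.subst σ '' Γ) (φ.subst σ)
  fin : ∀ {Γ : Set Fm} {φ : Fm}, Ent Γ φ → ∃ Δ : Set Fm, Δ ⊆ Γ ∧ Δ.Finite ∧ Ent Δ φ

/-- `S'` extends `S`. -/
def DedSys.Le (S S' : DedSys) : Prop := ∀ (Γ : Set Fm) (φ : Fm), S.Ent Γ φ → S'.Ent Γ φ

/-- The rule `Γ / φ` is admissible in `S`. -/
def DedSys.Admissible (S : DedSys) (Γ : Set Fm) (φ : Fm) : Prop :=
  ∀ σ : ℕ → Fm, (∀ γ ∈ Γ, S.Ent ∅ (γ.subst σ)) → S.Ent ∅ (φ.subst σ)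

/-- `S` is structurally complete: every admissible rule (with finitely many premises) is
derivable. -/
def DedSys.StrComplete (S : DedSys) : Prop :=
  ∀ (Γ : Set Fm) (φ : Fm), Γ.Finite → S.Admissible Γ φ → S.Ent Γ φ

/-- `S` is hereditarily structurally complete: every deductive system extending `S` is
structurally complete. -/
def DedSys.HSC (S : DedSys) : Prop := ∀ S' : DedSys, S.Le S' → S'.StrComplete

/-- the finitary companion of a structural consequence relation -/
def finitary (P : Set Fm → Fm → Prop)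
    (refl : ∀ {Γ : Set Fm} {φ : Fm}, φ ∈ Γ → P Γ φ)
    (mono : ∀ {Γ Δ : Set Fm} {φ : Fm}, Γ ⊆ Δ → P Γ φ → P Δ φ)
    (cut : ∀ {Γ Δ : Set Fm} {φ : Fm}, (∀ ψ ∈ Δ, P Γ ψ) → P Δ φ → P Γ φ)
    (struct : ∀ {Γ : Set Fm} {φ : Fm} (σ : ℕ → Fm), P Γ φ → P (Fm.subst σ '' Γ) (φ.subst σ)) :
    DedSys where
  Ent Γ φ := ∃ Δ : Set Fm, Δ ⊆ Γ ∧ Δ.Finite ∧ P Δ φ
  refl := by
    intro Γ φ h
    exact ⟨{φ}, by simpa using h, Set.finite_singleton _, refl rfl⟩
  mono := by
    rintro Γ Δ φ h ⟨Δ', h1, h2, h3⟩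
    exact ⟨Δ', h1.trans h, h2, h3⟩
  cut := by
    rintro Γ Δ φ h ⟨Δ', h1, h2, h3⟩
    choose! G hG1 hG2 hG3 using h
    refine ⟨⋃ ψ ∈ Δ', G ψ, ?_, ?_, ?_⟩
    · exact Set.iUnion₂_subset fun ψ hψ => hG1 ψ (h1 hψ)
    · exact h2.biUnion fun ψ hψ => hG2 ψ (h1 hψ)
    · refine cut ?_ h3
      intro ψ hψ
      exact mono (Set.subset_biUnion_of_mem hψ) (hG3 ψ (h1 hψ))
  struct := by
    rintro Γ φ σ ⟨Δ, h1, h2, h3⟩
    exact ⟨_, Set.image_mono h1, h2.image _, struct σ h3⟩
  fin := by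
    rintro Γ φ ⟨Δ, h1, h2, h3⟩
    exact ⟨Δ, h1, h2, Δ, subset_rfl, h2, h3⟩

theorem subst_subst (σ τ : ℕ → Fm) (s : Fm) :
    (s.subst σ).subst τ = s.subst (fun i => (σ i).subst τ) := by
  induction s with
  | var i => rfl
  | bot => rfl
  | top => rfl
  | and a b iha ihb => simp only [Fm.subst, iha, ihb]
  | or a b iha ihb => simp only [Fm.subst, iha, ihb]
  | imp a b iha ihb => simp only [Fm.subst, iha, ihb]

/-- The structural completion of `S`: it derives exactly the finitary rules admissible in `S`. -/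
def DedSys.completion (S : DedSys) : DedSys :=
  finitary (fun Γ φ => S.Admissible Γ φ)
    (fun h _ hγ => hγ _ h)
    (fun h h' σ hσ => h' σ fun γ hγ => hσ γ (h hγ))
    (fun h h' σ hσ => h' σ fun γ hγ => h γ hγ σ hσ)
    (by
      intro Γ φ σ h τ hτ
      rw [subst_subst]
      apply h
      intro γ hγ
      rw [← subst_subst]
      exact hτ _ ⟨γ, hγ, rfl⟩)

/-- The rule `Γ / φ` holds in the algebra `A`: every assignment sending all members of `Γ` to `1`
sends `φ` to `1`. -/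
def Alg.Val {M : Type u} (A : Alg M) (Γ : Set Fm) (φ : Fm) : Prop :=
  ∀ v : ℕ → M, (∀ γ ∈ Γ, A.eval v γ = A.top) → A.eval v φ = A.top

theorem Val.struct {M : Type u} (A : Alg M) {Γ : Set Fm} {φ : Fm} (σ : ℕ → Fm)
    (h : A.Val Γ φ) : A.Val (Fm.subst σ '' Γ) (φ.subst σ) := by
  intro v hv
  rw [eval_subst]
  apply h
  intro γ hγ
  rw [← eval_subst]
  exact hv _ ⟨γ, hγ, rfl⟩

/-- the set of formulas valid in `A` -/
def Alg.Log {M : Type u} (A : Alg M) : Set Fm := {φ | ∀ v : ℕ → M, A.eval v φ = A.top}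

theorem continuous_eval {n : ℕ} (A : Alg (Fin n)) (s : Fm) :
    Continuous fun v : ℕ → Fin n => A.eval v s := by
  induction s with
  | var i => exact continuous_apply i
  | bot => exact continuous_const
  | top => exact continuous_const
  | and a b iha ihb =>
    exact (continuous_of_discreteTopology (f := fun p : Fin n × Fin n => A.inf p.1 p.2)).comp
      (iha.prodMk ihb)
  | or a b iha ihb =>
    exact (continuous_of_discreteTopology (f := fun p : Fin n × Fin n => A.sup p.1 p.2)).comp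
      (iha.prodMk ihb)
  | imp a b iha ihb =>
    exact (continuous_of_discreteTopology (f := fun p : Fin n × Fin n => A.imp p.1 p.2)).comp
      (iha.prodMk ihb)

theorem val_compact {n : ℕ} (A : Alg (Fin n)) {Γ : Set Fm} {φ : Fm} (h : A.Val Γ φ) :
    ∃ Δ : Set Fm, Δ ⊆ Γ ∧ Δ.Finite ∧ A.Val Δ φ := by
  classical
  by_contra hc
  push Not at hc
  have hcl : ∀ s : Fm, ∀ K : Set (Fin n), IsClosed {v : ℕ → Fin n | A.eval v s ∈ K} := by
    intro s K
    exact (isClosed_discrete K).preimage (continuous_eval A s)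
  have hcomp : IsCompact {v : ℕ → Fin n | A.eval v φ ∈ ({A.top}ᶜ : Set (Fin n))} :=
    (hcl φ _).isCompact
  obtain ⟨v, hv1, hv2⟩ := hcomp.inter_iInter_nonempty
    (fun γ : Γ => {v : ℕ → Fin n | A.eval v γ.1 ∈ ({A.top} : Set (Fin n))})
    (fun γ => hcl γ.1 _) (by
      intro u
      have h1 := hc (Subtype.val '' (u : Set Γ)) (by
        rintro _ ⟨γ, -, rfl⟩
        exact γ.2) (u.finite_toSet.image _)
      unfold Alg.Val at h1
      push Not at h1
      obtain ⟨v, hv, hne⟩ := h1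
      refine ⟨v, hne, ?_⟩
      simp only [Set.mem_iInter]
      intro γ hγ
      exact hv γ.1 ⟨γ, hγ, rfl⟩)
  apply hv1
  apply h v
  intro γ hγ
  exact Set.mem_iInter.1 hv2 ⟨γ, hγ⟩

/-- the consequence relation `⊢_A` determined by the finite algebra `A` -/
def matSys {n : ℕ} (A : Alg (Fin n)) : DedSys where
  Ent := A.Val
  refl := fun h _ hv => hv _ h
  mono := fun h h' v hv => h' v fun γ hγ => hv γ (h hγ)
  cut := fun h h' v hv => h' v fun γ hγ => h γ hγ v hv
  struct := fun σ h => Val.struct A σ h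
  fin := fun h => val_compact A h

/-- `a ↔ b` -/
def Fm.iff (a b : Fm) : Fm := .and (.imp a b) (.imp b a)

/-- the property of implication in Heyting algebras used in the proofs -/
def IffTop {M : Type u} (A : Alg M) : Prop :=
  ∀ x y : M, A.inf (A.imp x y) (A.imp y x) = A.top ↔ x = y

theorem eval_iff {M : Type u} {A : Alg M} (hA : IffTop A) (v : ℕ → M) (s t : Fm) :
    A.eval v (.iff s t) = A.top ↔ A.eval v s = A.eval v t := hA _ _

theorem Sep.iffTop {M : Type u} {N : Type w} {C : Alg M} {A : Alg N} (h : Sep C A)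
    (hA : IffTop A) : IffTop C := by
  intro x y
  constructor
  · intro hxy
    by_contra hne
    obtain ⟨g, hg, hgne⟩ := h _ _ hne
    apply hgne
    rw [← hA, ← hg.imp, ← hg.imp, ← hg.inf, hxy, hg.top]
  · rintro rfl
    by_contra hne
    obtain ⟨g, hg, hgne⟩ := h _ _ hne
    apply hgne
    rw [hg.inf, hg.imp, hg.top]
    exact (hA _ _).2 rfl

theorem Sep.val {M : Type u} {N : Type w} {C : Alg M} {A : Alg N} (h : Sep C A) {Γ : Set Fm}
    {φ : Fm} (hA : A.Val Γ φ) : C.Val Γ φ := by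
  intro v hv
  by_contra hne
  obtain ⟨g, hg, hgne⟩ := h _ _ hne
  apply hgne
  rw [hg.eval, hg.top]
  apply hA
  intro γ hγ
  rw [← hg.eval, hv γ hγ, hg.top]

/-- **Hereditary structural completeness is equivalent to the finite criterion.** -/
theorem hsc_iff {n : ℕ} (A : Alg (Fin n)) (hI : IffTop A) (S : DedSys)
    (hS : ∀ (Γ : Set Fm) (φ : Fm), Γ.Finite → (S.Ent Γ φ ↔ A.Val Γ φ)) :
    S.HSC ↔ Crit A := by
  constructor
  · intro hH k hk C hC m hm E hE ho x y hxy
    by_contra hc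
    push Not at hc
    have hIE : IffTop E := hE.iffTop hI
    have hIC : IffTop C := hC.iffTop hI
    let S' : DedSys := finitary (fun Γ φ => E.Val Γ φ ∧ C.Val Γ φ)
      (fun h => ⟨fun _ hv => hv _ h, fun _ hv => hv _ h⟩)
      (fun h h' => ⟨fun v hv => h'.1 v fun γ hγ => hv γ (h hγ),
        fun v hv => h'.2 v fun γ hγ => hv γ (h hγ)⟩)
      (fun h h' => ⟨fun v hv => h'.1 v fun γ hγ => (h γ hγ).1 v hv,
        fun v hv => h'.2 v fun γ hγ => (h γ hγ).2 v hv⟩)
      (fun σ h => ⟨Val.struct E σ h.1, Val.struct C σ h.2⟩)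
    have hle : S.Le S' := by
      intro Γ φ h
      obtain ⟨Δ, h1, h2, h3⟩ := S.fin h
      have h4 := (hS Δ φ h2).1 h3
      exact ⟨Δ, h1, h2, hE.val h4, hC.val h4⟩
    let Γ : Set Fm := {γ | ∃ e ∈ dg C, γ = .iff e.1 e.2}
    have hΓ : Γ.Finite := by
      have : Γ = (fun e : Fm × Fm => Fm.iff e.1 e.2) '' {e | e ∈ dg C} := by
        ext γ
        constructor
        · rintro ⟨e, he, rfl⟩
          exact ⟨e, he, rfl⟩
        · rintro ⟨e, he, rfl⟩
          exact ⟨e, he, rfl⟩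
      rw [this]
      exact (List.finite_toSet (dg C)).image _
    have hEΓ : E.Val Γ (.iff (.var x) (.var y)) := by
      intro v hv
      rw [eval_iff hIE]
      apply hc _ (dg_hom C E v ?_)
      intro e he
      rw [← eval_iff hIE]
      exact hv _ ⟨e, he, rfl⟩
    have hadm : S'.Admissible Γ (.iff (.var x) (.var y)) := by
      intro σ hσ
      have h1 : ∀ v, E.eval v ((Fm.iff (.var x) (.var y)).subst σ) = E.top := by
        intro v
        rw [eval_subst]
        apply hEΓ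
        intro γ hγ
        obtain ⟨Δ, g1, -, g3, -⟩ := hσ γ hγ
        rw [← eval_subst]
        apply g3
        intro δ hδ
        exact absurd (g1 hδ) (by simp)
      refine ⟨∅, by simp, Set.finite_empty, fun v _ => h1 v, fun v _ => ?_⟩
      have h2 : E.SatI ((Fm.iff (.var x) (.var y)).subst σ, .top) := h1
      exact ho.satI h2 v
    obtain ⟨Δ, g1, -, -, g4⟩ := hH S' hle Γ _ hΓ hadm
    have h3 := g4 (v0 C) (by
      intro γ hγ
      obtain ⟨e, he, rfl⟩ := g1 hγ
      rw [eval_iff hIC]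
      exact dg_self C e he)
    rw [eval_iff hIC] at h3
    simp only [Alg.eval, v0_val] at h3
    exact hxy h3
  · intro hA S' hle Γ φ hΓ hadm
    by_contra hne
    let T : Set (Fm × Fm) := {e | S'.Ent Γ (.iff e.1 e.2)}
    let T' : Set (Fm × Fm) := {e | S'.Ent ∅ (.iff e.1 e.2)}
    have key : ∀ G : Set Fm, Closed A {e | S'.Ent G (.iff e.1 e.2)} := by
      intro G L e hL he
      let Δ : Set Fm := (fun p : Fm × Fm => Fm.iff p.1 p.2) '' {p | p ∈ L}
      have hΔ : Δ.Finite := (List.finite_toSet L).image _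
      have h1 : A.Val Δ (.iff e.1 e.2) := by
        intro v hv
        rw [eval_iff hI]
        apply he v
        intro p hp
        rw [← eval_iff hI]
        exact hv _ ⟨p, hp, rfl⟩
      have h2 : S'.Ent Δ (.iff e.1 e.2) := hle _ _ ((hS _ _ hΔ).2 h1)
      refine S'.cut ?_ h2
      rintro _ ⟨p, hp, rfl⟩
      exact hL p hp
    have hval : ∀ (G : Set Fm) (ψ χ : Fm), A.Val {ψ} χ → S'.Ent G ψ → S'.Ent G χ := by
      intro G ψ χ h1 h2
      have h3 : S'.Ent {ψ} χ := hle _ _ ((hS _ _ (Set.finite_singleton _)).2 h1)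
      refine S'.cut ?_ h3
      intro ψ' hψ'
      rw [Set.mem_singleton_iff.1 hψ']
      exact h2
    have hto : ∀ (G : Set Fm) (ψ : Fm), S'.Ent G ψ ↔ S'.Ent G (.iff ψ .top) := by
      intro G ψ
      constructor
      · apply hval
        intro v hv
        rw [eval_iff hI]
        exact hv ψ rfl
      · apply hval
        intro v hv
        have := hv _ (Set.mem_singleton _)
        rw [eval_iff hI] at this
        exact this
    obtain ⟨k1, hk1⟩ := exists_below_list (hΓ.toFinset.toList.map fun γ => (γ, γ))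
    obtain ⟨k2, hk2⟩ := exists_below φ
    obtain ⟨σ, hσ1, hσ2⟩ := crit_core hA (key Γ) (key ∅) (k := max k1 k2) (e := (φ, .top))
      (by
        intro e he τ
        have h1 := S'.struct τ he
        rw [Set.image_empty] at h1
        exact S'.mono (Set.empty_subset _) h1)
      (below_mono (le_max_right _ _) hk2) trivial
      (by
        intro h
        exact hne ((hto Γ φ).2 h))
    apply hσ2
    show S'.Ent ∅ (.iff (φ.subst σ) .top)
    rw [← hto]
    apply hadm
    intro γ hγ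
    rw [hto]
    have h2 : S'.Ent Γ (.iff γ .top) := (hto Γ γ).1 (S'.refl hγ)
    refine hσ1 (γ, .top) h2 ?_ trivial
    have h3 := hk1 (γ, γ) (List.mem_map.2 ⟨γ, by simpa using hγ, rfl⟩)
    exact below_mono (le_max_left _ _) h3.1

end Pool.Agent.Y549.HSC
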