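import Mathlib

set_option autoImplicit false

/-! A small tool box: `fun_prop` for primitive recursive functions and predicates. -/

namespace Pool.Agent.Y549.HSC

/-- primitive recursive function (a copy of `Primrec`, used for automation) -/
@[fun_prop]
def PR {α β : Type} [Primcodable α] [Primcodable β] (f : α → β) : Prop := Primrec f

/-- primitive recursive predicate (a copy of `PrimrecPred`, used for automation) -/
@[fun_prop]
def PP {α : Type} [Primcodable α] (p : α → Prop) : Prop := PrimrecPred p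

variable {α β γ δ : Type} [Primcodable α] [Primcodable β] [Primcodable γ] [Primcodable δ]

@[fun_prop] theorem PR.id : PR (fun a : α => a) := Primrec.id
@[fun_prop] theorem PR.const (b : β) : PR (fun _ : α => b) := Primrec.const b
@[fun_prop] theorem PR.comp {f : β → γ} {g : α → β} (hf : PR f) (hg : PR g) :
    PR (fun a => f (g a)) := Primrec.comp hf hg
@[fun_prop] theorem PR.fst' {f : α → β × γ} (hf : PR f) : PR (fun a => (f a).1) :=
  Primrec.fst.comp hf
@[fun_prop] theorem PR.snd' {f : α → β × γ} (hf : PR f) : PR (fun a => (f a).2) :=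
  Primrec.snd.comp hf
@[fun_prop] theorem PR.mk' {f : α → β} {g : α → γ} (hf : PR f) (hg : PR g) :
    PR (fun a => (f a, g a)) := Primrec.pair hf hg
@[fun_prop] theorem PR.add' {f g : α → ℕ} (hf : PR f) (hg : PR g) : PR (fun a => f a + g a) :=
  Primrec.nat_add.comp hf hg
@[fun_prop] theorem PR.sub' {f g : α → ℕ} (hf : PR f) (hg : PR g) : PR (fun a => f a - g a) :=
  Primrec.nat_sub.comp hf hg
@[fun_prop] theorem PR.mul' {f g : α → ℕ} (hf : PR f) (hg : PR g) : PR (fun a => f a * g a) :=
  Primrec.nat_mul.comp hf hg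
@[fun_prop] theorem PR.div' {f g : α → ℕ} (hf : PR f) (hg : PR g) : PR (fun a => f a / g a) :=
  Primrec.nat_div.comp hf hg
@[fun_prop] theorem PR.mod' {f g : α → ℕ} (hf : PR f) (hg : PR g) : PR (fun a => f a % g a) :=
  Primrec.nat_mod.comp hf hg
theorem pr_pow : Primrec₂ ((· ^ ·) : ℕ → ℕ → ℕ) := by
  refine (Primrec.nat_rec' (f := fun x : ℕ × ℕ => x.2) (g := fun _ => 1)
    (h := fun x y => y.2 * x.1) Primrec.snd (Primrec.const 1) ?_).of_eq ?_
  · exact Primrec.nat_mul.comp (Primrec.snd.comp Primrec.snd) (Primrec.fst.comp Primrec.fst)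
  · rintro ⟨a, b⟩
    induction b with
    | zero => simp
    | succ b ih => simp only at ih ⊢; rw [ih, pow_succ]
@[fun_prop] theorem PR.pow' {f g : α → ℕ} (hf : PR f) (hg : PR g) : PR (fun a => f a ^ g a) :=
  Primrec₂.comp pr_pow hf hg
@[fun_prop] theorem PR.getD' {f : α → List β} {g : α → ℕ} (d : β) (hf : PR f) (hg : PR g) :
    PR (fun a => (f a).getD (g a) d) := by
  have h : Primrec₂ (fun (l : List β) n => l.getD n d) := Primrec.list_getD d
  exact Primrec.comp (f := fun p : List β × ℕ => p.1.getD p.2 d) h (Primrec.pair hf hg)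
@[fun_prop] theorem PR.length' {f : α → List β} (hf : PR f) :
    PR (fun a => (f a).length) := Primrec.list_length.comp hf

@[fun_prop] theorem PP.eq' {f g : α → ℕ} (hf : PR f) (hg : PR g) : PP (fun a => f a = g a) :=
  Primrec.eq.comp hf hg
@[fun_prop] theorem PP.ne' {f g : α → ℕ} (hf : PR f) (hg : PR g) : PP (fun a => f a ≠ g a) :=
  PrimrecPred.not (Primrec.eq.comp hf hg)
@[fun_prop] theorem PP.lt' {f g : α → ℕ} (hf : PR f) (hg : PR g) : PP (fun a => f a < g a) :=
  Primrec.nat_lt.comp hf hg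
@[fun_prop] theorem PP.le' {f g : α → ℕ} (hf : PR f) (hg : PR g) : PP (fun a => f a ≤ g a) :=
  Primrec.nat_le.comp hf hg
@[fun_prop] theorem PP.and' {p q : α → Prop} (hp : PP p) (hq : PP q) : PP (fun a => p a ∧ q a) :=
  PrimrecPred.and hp hq
@[fun_prop] theorem PP.or' {p q : α → Prop} (hp : PP p) (hq : PP q) : PP (fun a => p a ∨ q a) :=
  PrimrecPred.or hp hq
@[fun_prop] theorem PP.not' {p : α → Prop} (hp : PP p) : PP (fun a => ¬ p a) :=
  PrimrecPred.not hp
@[fun_prop] theorem PP.const (p : Prop) : PP (fun _ : α => p) := by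
  by_cases h : p
  · exact (PrimrecPred.of_eq (p := fun _ : α => (0 : ℕ) = 0)
      (Primrec.eq.comp (Primrec.const 0) (Primrec.const 0)) (fun _ => by simp [h]))
  · exact (PrimrecPred.of_eq (p := fun _ : α => (0 : ℕ) = 1)
      (Primrec.eq.comp (Primrec.const 0) (Primrec.const 1)) (fun _ => by simp [h]))
@[fun_prop] theorem PP.comp' {p : β → Prop} {f : α → β} (hp : PP p) (hf : PR f) :
    PP (fun a => p (f a)) := PrimrecPred.comp hp hf

/-- implication, wrapped -/
def Imp (p q : Prop) : Prop := p → q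
@[fun_prop] theorem PP.imp' {p q : α → Prop} (hp : PP p) (hq : PP q) :
    PP (fun a => Imp (p a) (q a)) :=
  (PrimrecPred.or (PrimrecPred.not hp) hq).of_eq fun a => by unfold Imp; tauto

/-- bounded universal quantifier -/
def Ball (n : ℕ) (p : ℕ → Prop) : Prop := ∀ x < n, p x
/-- bounded existential quantifier -/
def Bex (n : ℕ) (p : ℕ → Prop) : Prop := ∃ x < n, p x

@[fun_prop] theorem PP.ball' {f : α → ℕ} {p : α → ℕ → Prop} (hf : PR f)
    (hp : PP (fun ax : α × ℕ => p ax.1 ax.2)) : PP (fun a => Ball (f a) (p a)) := by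
  have h : PrimrecRel fun (x : ℕ) (a : α) => p a x :=
    PrimrecPred.comp (p := fun ax : α × ℕ => p ax.1 ax.2) hp (Primrec.pair Primrec.snd Primrec.fst)
  have h2 := PrimrecRel.forall_mem_list h
  refine (PrimrecRel.comp h2 (Primrec.list_range.comp hf) Primrec.id).of_eq ?_
  intro a
  simp [Ball]

@[fun_prop] theorem PP.bex' {f : α → ℕ} {p : α → ℕ → Prop} (hf : PR f)
    (hp : PP (fun ax : α × ℕ => p ax.1 ax.2)) : PP (fun a => Bex (f a) (p a)) := by
  have h : PrimrecRel fun (x : ℕ) (a : α) => p a x :=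
    PrimrecPred.comp (p := fun ax : α × ℕ => p ax.1 ax.2) hp (Primrec.pair Primrec.snd Primrec.fst)
  have h2 := PrimrecRel.exists_mem_list h
  refine (PrimrecRel.comp h2 (Primrec.list_range.comp hf) Primrec.id).of_eq ?_
  intro a
  simp [Bex]

example : PP (fun a : ℕ × List (List ℕ) => Ball (a.1 ^ a.1) fun x =>
    Imp (x * a.1 + (a.2.getD x []).getD 0 0 = x % 2) (Bex x fun y => y + x = a.1)) := by
  fun_prop

end Pool.Agent.Y549.HSC
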