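import Pool.Agent.Y549.HSC.Alg

set_option autoImplicit false

/-! # Primitivity of the quasivariety generated by a finite algebra -/

namespace Pool.Agent.Y549.HSC

universe u w

/-- `B` belongs to the quasivariety generated by `A`: it satisfies all quasi-identities of `A`. -/
def InQ {M : Type w} (A : Alg M) {N : Type u} (B : Alg N) : Prop :=
  ∀ q : QId, A.SatQ q → B.SatQ q

/-- `B` is a model of the set `S` of quasi-identities. -/
def ModQ (S : Set QId) {N : Type u} (B : Alg N) : Prop := ∀ q ∈ S, B.SatQ q

/-- `B` is a model of the set `I` of identities. -/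
def ModI (I : Set (Fm × Fm)) {N : Type u} (B : Alg N) : Prop := ∀ e ∈ I, B.SatI e

/-- The quasivariety `Q(A)` is primitive: every quasivariety (class of all models of a set `S` of
quasi-identities) contained in `Q(A)` is the intersection of `Q(A)` with a variety (class of all
models of a set `I` of identities). -/
def Primitive {M : Type w} (A : Alg M) : Prop :=
  ∀ S : Set QId, (∀ (N : Type u) (B : Alg N), ModQ S B → InQ A B) →
    ∃ I : Set (Fm × Fm), ∀ (N : Type u) (B : Alg N), ModQ S B ↔ (InQ A B ∧ ModI I B)

/-- the diagram of a finite algebra -/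
def dg {k : ℕ} (C : Alg (Fin k)) : List (Fm × Fm) :=
  ((List.finRange k).flatMap fun i => (List.finRange k).flatMap fun j =>
    [(.and (.var i) (.var j), .var (C.inf i j)), (.or (.var i) (.var j), .var (C.sup i j)),
      (.imp (.var i) (.var j), .var (C.imp i j))]) ++
    [(.bot, .var C.bot), (.top, .var C.top)]

theorem dg_hom {k : ℕ} (C : Alg (Fin k)) {N : Type u} (E : Alg N) (v : ℕ → N)
    (h : ∀ e ∈ dg C, E.eval v e.1 = E.eval v e.2) : IsHom C E (fun i => v i) := by
  have hm : ∀ i j : Fin k, ∀ e, e ∈ [(Fm.and (.var i) (.var j), Fm.var (C.inf i j)),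
      (Fm.or (.var i) (.var j), Fm.var (C.sup i j)),
      (Fm.imp (.var i) (.var j), Fm.var (C.imp i j))] → e ∈ dg C := by
    intro i j e he
    unfold dg
    refine List.mem_append_left _ ?_
    refine List.mem_flatMap.2 ⟨i, List.mem_finRange i, ?_⟩
    exact List.mem_flatMap.2 ⟨j, List.mem_finRange j, he⟩
  refine ⟨?_, ?_, ?_, ?_, ?_⟩
  · intro a b
    exact (h _ (hm a b (Fm.and (.var a) (.var b), Fm.var (C.inf a b)) (by simp))).symm
  · intro a b
    exact (h _ (hm a b (Fm.or (.var a) (.var b), Fm.var (C.sup a b)) (by simp))).symm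
  · intro a b
    exact (h _ (hm a b (Fm.imp (.var a) (.var b), Fm.var (C.imp a b)) (by simp))).symm
  · exact (h (.bot, .var C.bot) (by simp [dg])).symm
  · exact (h (.top, .var C.top) (by simp [dg])).symm

/-- the canonical assignment in a finite algebra on `Fin k` -/
def v0 {k : ℕ} (C : Alg (Fin k)) : ℕ → Fin k := fun i => if h : i < k then ⟨i, h⟩ else C.bot

theorem v0_val {k : ℕ} (C : Alg (Fin k)) (i : Fin k) : v0 C i = i := by
  simp [v0]

theorem dg_self {k : ℕ} (C : Alg (Fin k)) : ∀ e ∈ dg C, C.eval (v0 C) e.1 = C.eval (v0 C) e.2 := by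
  intro e he
  unfold dg at he
  rcases List.mem_append.1 he with he | he
  · obtain ⟨i, -, he⟩ := List.mem_flatMap.1 he
    obtain ⟨j, -, he⟩ := List.mem_flatMap.1 he
    simp only [List.mem_cons, List.not_mem_nil, or_false] at he
    rcases he with rfl | rfl | rfl <;> simp [Alg.eval, v0_val]
  · simp only [List.mem_cons, List.not_mem_nil, or_false] at he
    rcases he with rfl | rfl <;> simp [Alg.eval, v0_val]

/-- a finite algebra satisfying all quasi-identities of `E` is separated by `E` -/
theorem sep_of_satQ {k : ℕ} (C : Alg (Fin k)) {N : Type u} (E : Alg N)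
    (h : ∀ q, E.SatQ q → C.SatQ q) : Sep C E := by
  intro x y hxy
  by_contra hc
  push Not at hc
  have h1 : E.SatQ (dg C, (.var x, .var y)) := by
    intro v hv
    exact hc _ (dg_hom C E v hv)
  have h2 := h _ h1 (v0 C) (dg_self C)
  simp only [Alg.eval, v0_val] at h2
  exact hxy h2

theorem satQ_of_inj {M : Type u} {N : Type w} {A : Alg M} {B : Alg N} {f : M → N}
    (hf : IsHom A B f) (hi : Function.Injective f) {q : QId} (h : B.SatQ q) : A.SatQ q := by
  intro v hv
  apply hi
  rw [hf.eval, hf.eval]
  apply h
  intro e he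
  rw [← hf.eval, ← hf.eval, hv e he]

theorem satQ_map {M : Type u} {N : Type w} (A : Alg M) (e : M ≃ N) (q : QId) :
    (A.map e).SatQ q ↔ A.SatQ q :=
  ⟨fun h => satQ_of_inj (map_hom A e) e.injective h,
    fun h => satQ_of_inj (map_hom_symm A e) e.symm.injective h⟩

theorem satI_iff_satQ {M : Type u} (A : Alg M) (e : Fm × Fm) : A.SatI e ↔ A.SatQ ([], e) := by
  constructor
  · intro h v _
    exact h v
  · intro h v
    exact h v (by simp)

/-- **Primitivity is equivalent to the finite criterion.** -/
theorem primitive_iff {n : ℕ} (A : Alg (Fin n)) : Primitive.{u} A ↔ Crit A := by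
  constructor
  · intro hP k hk C hC m hm E hE ho
    obtain ⟨I, hI⟩ := hP {q | E.SatQ q} (by
      intro N B hB q hq
      exact hB q (hE.satQ hq))
    have e1 : Fin m ≃ ULift.{u} (Fin m) := Equiv.ulift.symm
    have e2 : Fin k ≃ ULift.{u} (Fin k) := Equiv.ulift.symm
    have h1 : ModQ {q | E.SatQ q} (E.map e1) := by
      intro q hq
      exact (satQ_map E e1 q).2 hq
    have h2 := ((hI _ _).1 h1).2
    have h3 : ModQ {q | E.SatQ q} (C.map e2) := by
      refine (hI _ _).2 ⟨?_, ?_⟩
      · intro q hq
        exact (satQ_map C e2 q).2 (hC.satQ hq)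
      · intro e he
        have h4 := h2 e he
        rw [satI_iff_satQ, satQ_map, ← satI_iff_satQ] at h4 ⊢
        exact ho.satI h4
    exact sep_of_satQ C E fun q hq => (satQ_map C e2 q).1 (h3 q hq)
  · intro hA S hS
    refine ⟨{e | ∀ (N : Type u) (B : Alg N), ModQ S B → B.SatI e}, ?_⟩
    intro N B
    constructor
    · intro hB
      exact ⟨hS N B hB, fun e he => he N B hB⟩
    · rintro ⟨hBQ, hBI⟩
      intro q hq v hv
      by_contra hne
      obtain ⟨k1, hk1⟩ := exists_below_list q.1
      obtain ⟨k2, hk2⟩ := exists_below_list [q.2]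
      have hk2' := hk2 q.2 (by simp)
      let T : Set (Fm × Fm) := {e | B.eval v e.1 = B.eval v e.2}
      let T' : Set (Fm × Fm) := {e | ∀ (N : Type u) (B : Alg N), ModQ S B → B.SatI e}
      have hT : Closed A T := by
        intro L e hL he
        exact hBQ _ he v hL
      have hT' : Closed A T' := by
        intro L e hL he N' B' hB' v'
        exact hS N' B' hB' _ he v' (fun p hp => hL p hp N' B' hB' v')
      obtain ⟨σ, hσ1, hσ2⟩ := crit_core hA hT hT' (k := max k1 k2) (e := q.2)
        (by
          intro e he τ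
          show B.eval v _ = B.eval v _
          rw [eval_subst, eval_subst]
          exact hBI e he _)
        (below_mono (le_max_right _ _) hk2'.1) (below_mono (le_max_right _ _) hk2'.2) hne
      apply hσ2
      intro N' B' hB' v'
      rw [eval_subst, eval_subst]
      apply hB' q hq
      intro e he
      have := hσ1 e (hv e he) (below_mono (le_max_left _ _) (hk1 e he).1)
        (below_mono (le_max_left _ _) (hk1 e he).2) N' B' hB' v'
      simp only at this
      rw [eval_subst, eval_subst] at this
      exact this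

end Pool.Agent.Y549.HSC
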